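import Mathlib

set_option autoImplicit false

/-!
# A one-sided maximal inequality for long windows
-/

namespace Run7.h311.LM.Wk

open Finset MeasureTheory Topology

/-- the discrete one-sided maximal inequality -/
theorem disc {a : ℕ → ℝ} (ha : ∀ i, 0 ≤ a i) {l : ℝ} (hl : 0 < l) (N : ℕ) (B : Finset ℕ)
    (hB : ∀ j ∈ B, j < N ∧ ∃ m : ℕ, 1 ≤ m ∧ j + m ≤ N ∧ l * m < ∑ i ∈ Ico j (j + m), a i) :
    l * B.card ≤ ∑ i ∈ Ico 0 N, a i := by
  have key : ∀ k : ℕ, ∀ n : ℕ, n + k = N →
      l * (B.filter (fun j => n ≤ j)).card ≤ ∑ i ∈ Ico n N, a i := by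
    intro k
    induction k using Nat.strong_induction_on with
    | _ k ih =>
      intro n hn
      rcases Nat.eq_zero_or_pos k with hk | hk
      · have h1 : B.filter (fun j => n ≤ j) = ∅ := by
          refine filter_eq_empty_iff.2 fun j hj => ?_
          have := (hB j hj).1
          omega
        rw [h1, card_empty, Nat.cast_zero, mul_zero]
        exact sum_nonneg fun i _ => ha i
      · by_cases hnB : n ∈ B
        · obtain ⟨-, m, hm1, hm2, hm3⟩ := hB n hnB
          have h1 := ih (k - m) (by omega) (n + m) (by omega)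
          have h2 : (B.filter (fun j => n ≤ j)).card ≤ m + (B.filter (fun j => n + m ≤ j)).card := by
            have h3 : B.filter (fun j => n ≤ j) ⊆ Ico n (n + m) ∪ B.filter (fun j => n + m ≤ j) := by
              intro j hj
              rw [mem_filter] at hj
              rw [mem_union, mem_Ico, mem_filter]
              by_cases h : j < n + m
              · exact Or.inl ⟨hj.2, h⟩
              · exact Or.inr ⟨hj.1, by omega⟩
            refine (card_le_card h3).trans ((card_union_le _ _).trans ?_)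
            rw [Nat.card_Ico]
            omega
          have h4 : ((B.filter (fun j => n ≤ j)).card : ℝ) ≤ m + (B.filter (fun j => n + m ≤ j)).card := by
            exact_mod_cast h2
          have h5 : ∑ i ∈ Ico n N, a i = ∑ i ∈ Ico n (n + m), a i + ∑ i ∈ Ico (n + m) N, a i :=
            (sum_Ico_consecutive a (by omega) hm2).symm
          rw [h5]
          nlinarith
        · have h1 := ih (k - 1) (by omega) (n + 1) (by omega)
          have h2 : B.filter (fun j => n ≤ j) = B.filter (fun j => n + 1 ≤ j) := by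
            refine filter_congr fun j hj => ?_
            constructor
            · intro h
              rcases Nat.lt_or_ge n j with h' | h'
              · exact h'
              · exact absurd (le_antisymm h' h ▸ hj) hnB
            · intro h; omega
          rw [h2]
          refine h1.trans ?_
          rw [← sum_Ico_consecutive a (Nat.le_succ n) (by omega : n + 1 ≤ N)]
          have : 0 ≤ ∑ i ∈ Ico n n.succ, a i := sum_nonneg fun i _ => ha i
          linarith
  have h := key N 0 (by omega)
  have h2 : B.filter (fun j => 0 ≤ j) = B := filter_true_of_mem fun j _ => Nat.zero_le j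
  rwa [h2] at h

/-- the integrals over the cells of a grid -/
theorem cells {g : ℝ → ℝ} (hg : Continuous g) {l : ℝ} (j k : ℕ) (hjk : j ≤ k) :
    ∑ i ∈ Ico j k, ∫ t in (i * l)..((i + 1) * l), g t = ∫ t in (j * l)..(k * l), g t := by
  have h := intervalIntegral.sum_integral_adjacent_intervals_Ico (μ := volume) (f := g)
    (a := fun i : ℕ => (i:ℝ) * l) hjk (fun i _ => hg.intervalIntegrable _ _)
  rw [← h]
  refine sum_congr rfl fun i _ => ?_
  push_cast
  rfl

open Classical in
/-- the maximal inequality for windows of length at least `l` -/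
theorem weak {g : ℝ → ℝ} (hg : Continuous g) (hg0 : ∀ x, 0 ≤ g x) {l X c : ℝ} (hl : 0 < l) (hX : 0 ≤ X)
    (hc : 0 < c) :
    volume.real {t | 0 ≤ t ∧ t ≤ X ∧ ∃ H, l ≤ H ∧ t + H ≤ X ∧ c * H < ∫ s in t..(t + H), g s} * c ≤
      3 * ∫ s in (0:ℝ)..(X + l), g s := by
  set N : ℕ := ⌈X / l⌉₊ with hN
  have hN1 : X ≤ N * l := by rw [← div_le_iff₀ hl]; exact Nat.le_ceil _
  have hN2 : N * l ≤ X + l := by
    have h1 := (Nat.ceil_lt_add_one (show 0 ≤ X / l by positivity)).le
    rw [← hN] at h1
    calc (N:ℝ) * l ≤ (X / l + 1) * l := mul_le_mul_of_nonneg_right h1 hl.le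
      _ = X + l := by field_simp
  set a : ℕ → ℝ := fun i => ∫ t in (i * l)..((i + 1) * l), g t with ha
  have ha0 : ∀ i, 0 ≤ a i := fun i => intervalIntegral.integral_nonneg (by nlinarith) fun x _ => hg0 x
  set E : Set ℝ := {t | 0 ≤ t ∧ t ≤ X ∧ ∃ H, l ≤ H ∧ t + H ≤ X ∧ c * H < ∫ s in t..(t + H), g s} with hE
  set B : Finset ℕ := (range N).filter fun j => ∃ m : ℕ, 1 ≤ m ∧ j + m ≤ N ∧
    (c * l / 3) * m < ∑ i ∈ Ico j (j + m), a i with hB
  have hii : ∀ x y, IntervalIntegrable g volume x y := fun x y => hg.intervalIntegrable x y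
  have hcov : E ⊆ ⋃ j ∈ B, Set.Icc ((j:ℝ) * l) ((j + 1) * l) := by
    rintro t ⟨ht0, htX, H, hH1, hH2, hH3⟩
    set j : ℕ := ⌊t / l⌋₊ with hj
    have hj1 : j * l ≤ t := by
      rw [← le_div_iff₀ hl]; exact Nat.floor_le (by positivity)
    have hj2 : t < (j + 1) * l := by
      rw [← div_lt_iff₀ hl]; exact Nat.lt_floor_add_one _
    set k : ℕ := ⌈(t + H) / l⌉₊ with hk
    have hk1 : t + H ≤ k * l := by rw [← div_le_iff₀ hl]; exact Nat.le_ceil _
    have hk2 : (k:ℝ) * l < t + H + l := by
      have h1 := Nat.ceil_lt_add_one (show 0 ≤ (t + H) / l from div_nonneg (by linarith) hl.le)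
      rw [← hk] at h1
      calc (k:ℝ) * l < ((t + H) / l + 1) * l := mul_lt_mul_of_pos_right h1 hl
        _ = t + H + l := by field_simp
    have hkN : k ≤ N := by
      rw [hk, hN]
      exact Nat.ceil_mono (div_le_div_of_nonneg_right hH2 hl.le)
    have hjk : j < k := by
      have : (j:ℝ) * l < k * l := by linarith
      exact_mod_cast lt_of_mul_lt_mul_right this hl.le
    rw [Set.mem_iUnion₂]
    refine ⟨j, ?_, hj1, hj2.le⟩
    rw [hB, mem_filter, mem_range]
    refine ⟨by omega, k - j, by omega, by omega, ?_⟩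
    have e1 : j + (k - j) = k := by omega
    rw [e1, ha, cells hg j k hjk.le]
    have e2 : ((k - j : ℕ) : ℝ) = (k:ℝ) - j := by push_cast [Nat.cast_sub hjk.le]; ring
    rw [e2]
    have h1 : ((k:ℝ) - j) * l ≤ 3 * H := by
      have : (k:ℝ) * l - j * l ≤ 3 * H := by linarith
      linarith
    have h2 : ∫ s in t..(t + H), g s ≤ ∫ s in (j * l)..(k * l), g s :=
      intervalIntegral.integral_mono_interval hj1 (by linarith) hk1
        (Filter.Eventually.of_forall fun x => hg0 x) (hii _ _)
    calc c * l / 3 * ((k:ℝ) - j) = c / 3 * (((k:ℝ) - j) * l) := by ring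
      _ ≤ c / 3 * (3 * H) := mul_le_mul_of_nonneg_left h1 (by positivity)
      _ = c * H := by ring
      _ < _ := lt_of_lt_of_le hH3 h2
  have hBb := disc ha0 (l := c * l / 3) (by positivity) N B (by
    intro j hj
    rw [hB, mem_filter, mem_range] at hj
    exact hj)
  rw [ha, cells hg 0 N (Nat.zero_le N), Nat.cast_zero, zero_mul] at hBb
  have hI : ∫ t in (0:ℝ)..(N * l), g t ≤ ∫ s in (0:ℝ)..(X + l), g s :=
    intervalIntegral.integral_mono_interval le_rfl (by positivity) hN2
      (Filter.Eventually.of_forall fun x => hg0 x) (hii _ _)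
  have hvol : volume.real E ≤ B.card * l := by
    have h1 : volume.real (⋃ j ∈ B, Set.Icc ((j:ℝ) * l) ((j + 1) * l)) ≤
        ∑ j ∈ B, volume.real (Set.Icc ((j:ℝ) * l) ((j + 1) * l)) := measureReal_biUnion_finset_le _ _
    have h2 : ∀ j ∈ B, volume.real (Set.Icc ((j:ℝ) * l) ((j + 1) * l)) = l := by
      intro j _
      rw [Real.volume_real_Icc_of_le (by nlinarith)]
      ring
    rw [sum_congr rfl h2, sum_const, nsmul_eq_mul] at h1
    refine (measureReal_mono hcov ?_).trans h1
    exact ((measure_biUnion_finset_le _ _).trans_lt (ENNReal.sum_lt_top.2 fun j _ => by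
      rw [Real.volume_Icc]; exact ENNReal.ofReal_lt_top)).ne
  calc volume.real E * c ≤ (B.card * l) * c := mul_le_mul_of_nonneg_right hvol hc.le
    _ = 3 * (c * l / 3 * B.card) := by ring
    _ ≤ 3 * ∫ s in (0:ℝ)..(X + l), g s := by linarith

end Run7.h311.LM.Wk
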