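import Pool.Agent.Run7.h311.LM.Up
import Pool.Agent.W184.Half

set_option autoImplicit false

/-!
# The moments over a window of the critical line dominate the moments over a window to the right of it
-/

namespace Run7.h311.LM.Low

open Filter MeasureTheory Topology Complex
open Pool.Agent.W184 (zn zn_nonneg zn_cont zn_neg KP KP_cont KP_nonneg KP_le KP_int)
open Run7.h311.LM.Up

theorem zeta_two : ∃ C : ℝ, 0 < C ∧ ∀ s : ℂ, 2 ≤ s.re → ‖riemannZeta s‖ ≤ C := by
  have hsum : Summable (fun n : ℕ => 1 / ((n : ℝ) + 1) ^ 2) := by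
    have := (summable_nat_add_iff 1).2 (Real.summable_one_div_nat_pow.2 (by norm_num : 1 < 2))
    simpa using this
  refine ⟨∑' n : ℕ, 1 / ((n : ℝ) + 1) ^ 2, hsum.tsum_pos (fun n => by positivity) 0 (by positivity),
    fun s hs => ?_⟩
  rw [zeta_eq_tsum_one_div_nat_add_one_cpow (by linarith)]
  refine tsum_of_norm_bounded hsum.hasSum fun n => ?_
  have e3 : ((n : ℂ) + 1) = (((n : ℝ) + 1 : ℝ) : ℂ) := by push_cast; ring
  rw [e3, norm_div, norm_one, Complex.norm_cpow_eq_rpow_re_of_pos (by positivity)]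
  refine one_div_le_one_div_of_le (by positivity) ?_
  rw [← Real.rpow_two]
  exact Real.rpow_le_rpow_of_exponent_le (by linarith [Nat.cast_nonneg (α := ℝ) n]) hs

/-- the kernel of the error term -/
noncomputable def EE (w : ℝ) : ℝ := ((1 + w ^ 2) ^ 4)⁻¹

theorem EE_pos (w : ℝ) : 0 < EE w := by unfold EE; positivity

theorem EE_cont : Continuous EE := by
  unfold EE
  refine Continuous.inv₀ (by fun_prop) fun w => ?_
  positivity

/-- growth -/
theorem G_grow {p : ℝ} (hp : 0 < p) (hp2 : p ≤ 2) (x : ℝ) : G p x ≤ 288 * (1 + x ^ 2) := by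
  rw [G_zn]
  have h1 : zn (1 / 2) x ≤ 12 * (1 + |x|) := Pool.Agent.W184.zn_le' (by norm_num) (by norm_num)
  have h0 : 1 ≤ 12 * (1 + |x|) := by linarith [abs_nonneg x]
  calc zn (1 / 2) x ^ p ≤ (12 * (1 + |x|)) ^ p := Real.rpow_le_rpow (zn_nonneg _ _) h1 hp.le
    _ ≤ (12 * (1 + |x|)) ^ (2:ℝ) := Real.rpow_le_rpow_of_exponent_le h0 hp2
    _ = 144 * (1 + |x|) ^ 2 := by rw [Real.rpow_two]; ring
    _ ≤ 288 * (1 + x ^ 2) := by nlinarith [sq_abs x, sq_nonneg (1 - |x|)]

theorem sub_mul_grow (t w : ℝ) : 1 + (t + w) ^ 2 ≤ 2 * ((1 + t ^ 2) * (1 + w ^ 2)) := by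
  nlinarith [sq_nonneg (t - w), sq_nonneg (t * w)]

/-- the mean of the weights around `t` -/
noncomputable def AG (p t : ℝ) : ℝ := ∫ w, EE w * G p (t + w)

theorem AG_bd {p : ℝ} (hp : 0 < p) (hp2 : p ≤ 2) (t w : ℝ) :
    ‖EE w * G p (t + w)‖ ≤ 576 * (1 + t ^ 2) * (1 + w ^ 2)⁻¹ := by
  rw [Real.norm_of_nonneg (mul_nonneg (EE_pos w).le (G_nonneg _ _))]
  have h1 := (G_grow hp hp2 (t + w)).trans (mul_le_mul_of_nonneg_left (sub_mul_grow t w) (by norm_num))
  have h2 : EE w * (1 + w ^ 2) ≤ (1 + w ^ 2)⁻¹ := by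
    unfold EE
    have h3 : 1 ≤ 1 + w ^ 2 := by nlinarith [sq_nonneg w]
    rw [inv_mul_eq_div, div_le_iff₀ (by positivity), inv_mul_eq_div, le_div_iff₀ (by positivity)]
    calc (1 + w ^ 2) * (1 + w ^ 2) = (1 + w ^ 2) ^ 2 := by ring
      _ ≤ (1 + w ^ 2) ^ 4 := pow_le_pow_right₀ h3 (by norm_num)
  calc EE w * G p (t + w) ≤ EE w * (288 * (2 * ((1 + t ^ 2) * (1 + w ^ 2)))) :=
        mul_le_mul_of_nonneg_left h1 (EE_pos w).le
    _ = 576 * (1 + t ^ 2) * (EE w * (1 + w ^ 2)) := by ring
    _ ≤ _ := mul_le_mul_of_nonneg_left h2 (by positivity)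

theorem AG_int {p : ℝ} (hp : 0 < p) (hp2 : p ≤ 2) (t : ℝ) : Integrable fun w => EE w * G p (t + w) := by
  have hG := G_cont hp
  have hE := EE_cont
  refine (integrable_inv_one_add_sq.const_mul (576 * (1 + t ^ 2))).mono'
    (by fun_prop : Continuous fun w => EE w * G p (t + w)).aestronglyMeasurable
    (ae_of_all _ fun w => AG_bd hp hp2 t w)

theorem AG_nonneg (p t : ℝ) : 0 ≤ AG p t :=
  integral_nonneg fun w => mul_nonneg (EE_pos w).le (G_nonneg _ _)

theorem AG_cont {p : ℝ} (hp : 0 < p) (hp2 : p ≤ 2) : Continuous (AG p) := by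
  have hG := G_cont hp
  have hE := EE_cont
  rw [continuous_iff_continuousAt]
  intro t0
  refine continuousAt_of_dominated (bound := fun w => 576 * (1 + (|t0| + 1) ^ 2) * (1 + w ^ 2)⁻¹) ?_ ?_ ?_ ?_
  · exact Eventually.of_forall fun t =>
      (by fun_prop : Continuous fun w => EE w * G p (t + w)).aestronglyMeasurable
  · filter_upwards [Metric.ball_mem_nhds t0 one_pos] with t ht
    refine ae_of_all _ fun w => (AG_bd hp hp2 t w).trans ?_
    have h1 : |t| ≤ |t0| + 1 := by
      rw [Metric.mem_ball, Real.dist_eq] at ht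
      have := abs_sub_abs_le_abs_sub t t0
      linarith
    have h2 : t ^ 2 ≤ (|t0| + 1) ^ 2 := by
      rw [← sq_abs t]; exact pow_le_pow_left₀ (abs_nonneg _) h1 2
    refine mul_le_mul_of_nonneg_right ?_ (by positivity)
    linarith
  · exact integrable_inv_one_add_sq.const_mul _
  · exact ae_of_all _ fun w => (by fun_prop : Continuous fun t => EE w * G p (t + w)).continuousAt

/-- the mean value of the error term -/
theorem AG_total {α : ℝ} (hα : 0 < α) (hα1 : α ≤ 1) : ∃ C : ℝ, 1 ≤ C ∧ ∀ᶠ T : ℝ in atTop,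
    ∫ t in (0:ℝ)..T, AG (2 * α) t ≤ C * (T * Real.log T ^ (α ^ 2)) := by
  have hp : 0 < 2 * α := by linarith
  have hp2 : 2 * α ≤ 2 := by linarith
  have hG := G_cont hp
  have hE := EE_cont
  obtain ⟨C, hC, hev⟩ := total hα (by linarith : α ≤ 2)
  have h2 : Tendsto (fun T : ℝ => 2 * T) atTop atTop := tendsto_id.const_mul_atTop (by norm_num)
  have hlog : Tendsto Real.log atTop atTop := Real.tendsto_log_atTop
  set D : ℝ := 2 * (C * (2 * 2 ^ (α ^ 2))) + 1152 with hD
  have hD0 : 1152 ≤ D := by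
    have : 0 ≤ 2 * (C * (2 * 2 ^ (α ^ 2))) := by positivity
    linarith
  have hpi := Real.pi_gt_three
  refine ⟨D * Real.pi, by nlinarith, ?_⟩
  filter_upwards [h2.eventually hev, eventually_ge_atTop 2, hlog.eventually_ge_atTop 1] with T g1 g2 g3
  have hT0 : 0 < T := by linarith
  have hl2 : Real.log (2 * T) ≤ 2 * Real.log T := by
    rw [Real.log_mul (by norm_num) (by linarith)]
    have : Real.log 2 ≤ Real.log T := Real.log_le_log (by norm_num) g2
    linarith
  have hS1 : 1 ≤ Real.log T ^ (α ^ 2) := Real.one_le_rpow g3 (by positivity)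
  have g1' : ∫ t in (0:ℝ)..(2 * T), G (2 * α) t ≤ C * (2 * 2 ^ (α ^ 2)) * (T * Real.log T ^ (α ^ 2)) := by
    refine g1.trans ?_
    have h3 : Real.log (2 * T) ^ (α ^ 2) ≤ 2 ^ (α ^ 2) * Real.log T ^ (α ^ 2) := by
      rw [← Real.mul_rpow (by norm_num) (by linarith)]
      exact Real.rpow_le_rpow (Real.log_nonneg (by linarith)) hl2 (by positivity)
    calc C * (2 * T * Real.log (2 * T) ^ (α ^ 2)) ≤ C * (2 * T * (2 ^ (α ^ 2) * Real.log T ^ (α ^ 2))) := by
          gcongr
      _ = _ := by ring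
  -- the inner integrals
  have inner : ∀ w : ℝ, ∫ t in (0:ℝ)..T, G (2 * α) (t + w) ≤ D * (T * Real.log T ^ (α ^ 2)) * (1 + w ^ 2) ^ 3 := by
    intro w
    have hw1 : 1 ≤ 1 + w ^ 2 := by nlinarith [sq_nonneg w]
    have hw3 : 1 + w ^ 2 ≤ (1 + w ^ 2) ^ 3 := le_self_pow₀ hw1 (by norm_num)
    have hTS : 0 ≤ T * Real.log T ^ (α ^ 2) := by positivity
    have hTS2 : T ≤ T * Real.log T ^ (α ^ 2) := le_mul_of_one_le_right hT0.le hS1
    rcases le_total |w| T with h | h
    · obtain ⟨ha, hb⟩ := abs_le.1 h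
      rw [intervalIntegral.integral_comp_add_right (fun x => G (2 * α) x)]
      have e1 : ∫ x in (0 + w)..(T + w), G (2 * α) x ≤ ∫ x in (-(2 * T))..(2 * T), G (2 * α) x :=
        intervalIntegral.integral_mono_interval (by linarith) (by linarith) (by linarith)
          (Eventually.of_forall fun x => G_nonneg _ _) (G_ii hp _ _)
      have e2 := intervalIntegral.integral_add_adjacent_intervals (G_ii hp (-(2 * T)) 0) (G_ii hp 0 (2 * T))
      have e3 : ∫ x in (-(2 * T))..0, G (2 * α) x = ∫ x in (0:ℝ)..(2 * T), G (2 * α) x := by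
        have := intervalIntegral.integral_comp_neg (a := 0) (b := 2 * T) (fun x => G (2 * α) x)
        rw [neg_zero] at this
        rw [← this]
        refine intervalIntegral.integral_congr fun x _ => ?_
        exact G_neg _ _
      calc ∫ x in (0 + w)..(T + w), G (2 * α) x ≤ 2 * (C * (2 * 2 ^ (α ^ 2)) * (T * Real.log T ^ (α ^ 2))) := by
            linarith
        _ = 2 * (C * (2 * 2 ^ (α ^ 2))) * (T * Real.log T ^ (α ^ 2)) * 1 := by ring
        _ ≤ D * (T * Real.log T ^ (α ^ 2)) * (1 + w ^ 2) ^ 3 := by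
            refine mul_le_mul (mul_le_mul_of_nonneg_right (by linarith) hTS) (hw1.trans hw3) (by norm_num)
              (by positivity)
    · have e1 : ∫ t in (0:ℝ)..T, G (2 * α) (t + w) ≤ ∫ t in (0:ℝ)..T, 1152 * (1 + w ^ 2) := by
        refine intervalIntegral.integral_mono_on hT0.le (Continuous.intervalIntegrable (by fun_prop) _ _)
          (Continuous.intervalIntegrable (by fun_prop) _ _) fun t ht => ?_
        refine (G_grow hp hp2 _).trans ?_
        have h5 : t ^ 2 ≤ w ^ 2 := by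
          rw [← sq_abs w]; exact pow_le_pow_left₀ ht.1 (ht.2.trans h) 2
        nlinarith [sq_nonneg (t - w)]
      rw [intervalIntegral.integral_const, sub_zero, smul_eq_mul] at e1
      calc ∫ t in (0:ℝ)..T, G (2 * α) (t + w) ≤ T * (1152 * (1 + w ^ 2)) := e1
        _ = 1152 * T * (1 + w ^ 2) := by ring
        _ ≤ D * (T * Real.log T ^ (α ^ 2)) * (1 + w ^ 2) ^ 3 := by
            refine mul_le_mul (mul_le_mul hD0 hTS2 hT0.le (by linarith)) hw3 (by positivity)
              (by positivity)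
  -- the double integral
  have hint : Integrable (Function.uncurry fun (t w : ℝ) => EE w * G (2 * α) (t + w))
      ((volume.restrict (Set.uIoc 0 T)).prod volume) := by
    have h1 : Integrable (fun q : ℝ × ℝ => (576 * (1 + T ^ 2)) * (1 + q.2 ^ 2)⁻¹)
        ((volume.restrict (Set.uIoc 0 T)).prod volume) := by
      have := Integrable.mul_prod (μ := volume.restrict (Set.uIoc 0 T)) (ν := (volume : Measure ℝ))
        (f := fun _ : ℝ => (576 * (1 + T ^ 2))) (g := fun w : ℝ => (1 + w ^ 2)⁻¹)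
        (by
          rw [Set.uIoc_of_le hT0.le]
          exact integrable_const _) integrable_inv_one_add_sq
      exact this
    refine h1.mono' ?_ ?_
    · have : Continuous (Function.uncurry fun (t w : ℝ) => EE w * G (2 * α) (t + w)) := by
        unfold Function.uncurry
        fun_prop
      exact this.aestronglyMeasurable
    · have h2 : ((volume.restrict (Set.uIoc 0 T)).prod (volume : Measure ℝ)) =
          (volume.prod volume).restrict (Set.uIoc (0:ℝ) T ×ˢ Set.univ) := by
        rw [← Measure.prod_restrict, Measure.restrict_univ]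
      rw [h2]
      refine (ae_restrict_mem (measurableSet_uIoc.prod MeasurableSet.univ)).mono fun q hq => ?_
      have hq1 := hq.1
      rw [Set.uIoc_of_le hT0.le] at hq1
      refine (AG_bd hp hp2 q.1 q.2).trans ?_
      refine mul_le_mul_of_nonneg_right ?_ (by positivity)
      have : q.1 ^ 2 ≤ T ^ 2 := pow_le_pow_left₀ hq1.1.le hq1.2 2
      linarith
  have hsw := intervalIntegral_integral_swap hint
  unfold AG
  rw [hsw]
  have hbd : ∀ w : ℝ, ∫ t in (0:ℝ)..T, EE w * G (2 * α) (t + w) ≤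
      D * (T * Real.log T ^ (α ^ 2)) * (1 + w ^ 2)⁻¹ := by
    intro w
    rw [intervalIntegral.integral_const_mul]
    refine (mul_le_mul_of_nonneg_left (inner w) (EE_pos w).le).trans (le_of_eq ?_)
    unfold EE
    have : 0 < 1 + w ^ 2 := by positivity
    field_simp
  calc ∫ w, ∫ t in (0:ℝ)..T, EE w * G (2 * α) (t + w) ≤
      ∫ w, D * (T * Real.log T ^ (α ^ 2)) * (1 + w ^ 2)⁻¹ := by
        refine integral_mono_of_nonneg (ae_of_all _ fun w => ?_)
          (integrable_inv_one_add_sq.const_mul _) (ae_of_all _ hbd)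
        exact intervalIntegral.integral_nonneg hT0.le fun t _ => mul_nonneg (EE_pos w).le (G_nonneg _ _)
    _ = D * Real.pi * (T * Real.log T ^ (α ^ 2)) := by
        rw [integral_const_mul, integral_univ_inv_one_add_sq]; ring

/-- the weights to the right of the critical line -/
noncomputable def GN (p Δ t : ℝ) : ℝ := ‖riemannZeta (((1 / 2 + Δ : ℝ) : ℂ) + t * I)‖ ^ p

theorem GN_nonneg (p Δ t : ℝ) : 0 ≤ GN p Δ t := Real.rpow_nonneg (norm_nonneg _) _

theorem GN_cont {p Δ : ℝ} (hp : 0 < p) (hΔ : Δ ≤ 1 / 8) : Continuous (GN p Δ) := by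
  have h : GN p Δ = fun t => zn (1 / 2 + Δ) t ^ p := rfl
  rw [h]
  exact (zn_cont (by linarith)).rpow_const fun _ => Or.inr hp.le

/-- the constant of the inequality -/
noncomputable def fc (p Δ : ℝ) (M : ℕ) : ℝ := ((1 - 8 * Δ) / (1 + Δ) ^ (2 * M)) ^ p

/-- pointwise domination -/
theorem pt_dom {p Δ η : ℝ} (hp : 0 < p) (hp2 : p ≤ 2) (h0 : 0 < Δ) (h1 : Δ ≤ 1 / 8) (hη : 0 < η) {M : ℕ}
    (hM : 1 ≤ M) (hMp : 4 ≤ (M:ℝ) * p) (t : ℝ) :
    fc p Δ M * GN p Δ t ≤ (∫ w in (-η)..η, KP Δ w * G p (t + w)) + Δ / η ^ 2 * AG p t := by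
  obtain ⟨C, hC, hz⟩ := zeta_two
  have hG := G_cont hp
  have hK := KP_cont h0
  have hm := Pool.Agent.W184.half_pt (Q := fun _ => 0) (N := 1) (C1 := 0) (C2 := C) (p := p) (Δ := Δ) (t := t)
    (M := M) hp le_rfl hM (differentiable_const _) (fun z _ _ => by simp) (fun z hz' => by
      rw [sub_zero, Real.one_rpow, mul_one]; exact hz z hz') h0 h1
  simp only [sub_zero, Real.one_rpow, mul_one] at hm
  refine hm.trans ?_
  have e0 : ∀ w : ℝ, ‖riemannZeta (((1 / 2 : ℝ) : ℂ) + ((t + w : ℝ) : ℂ) * I)‖ ^ p = G p (t + w) := by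
    intro w
    rw [G_zn]; rfl
  simp_rw [e0]
  have hi1 : Integrable ((Set.Icc (-η) η).indicator fun w => KP Δ w * G p (t + w)) := by
    rw [integrable_indicator_iff measurableSet_Icc]
    exact (hK.mul (hG.comp (by fun_prop : Continuous fun w => t + w))).integrableOn_Icc
  have hi2 : Integrable fun w => Δ / η ^ 2 * (EE w * G p (t + w)) := (AG_int hp hp2 t).const_mul _
  have e1 : (∫ w in (-η)..η, KP Δ w * G p (t + w)) + Δ / η ^ 2 * AG p t =
      ∫ w, (((Set.Icc (-η) η).indicator fun w => KP Δ w * G p (t + w)) w + Δ / η ^ 2 * (EE w * G p (t + w))) := by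
    rw [integral_add hi1 hi2, integral_indicator measurableSet_Icc, integral_const_mul,
      intervalIntegral.integral_of_le (by linarith), integral_Icc_eq_integral_Ioc]
    rfl
  rw [e1]
  have hw16 : ∀ w : ℝ, (1 + w ^ 2) ^ (-((M:ℝ) * p)) ≤ EE w := by
    intro w
    have h3 : 1 ≤ 1 + w ^ 2 := by nlinarith [sq_nonneg w]
    calc (1 + w ^ 2) ^ (-((M:ℝ) * p)) ≤ (1 + w ^ 2) ^ (-(4:ℝ)) :=
          Real.rpow_le_rpow_of_exponent_le h3 (by linarith)
      _ = EE w := by
          unfold EE
          rw [Real.rpow_neg (by linarith)]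
          norm_num
  refine integral_mono_of_nonneg (ae_of_all _ fun w => ?_) (hi1.add hi2) (ae_of_all _ fun w => ?_)
  · exact mul_nonneg (mul_nonneg (KP_nonneg h0 w) (by positivity)) (G_nonneg _ _)
  · simp only
    have hGw := G_nonneg p (t + w)
    have hEw := EE_pos w
    by_cases hw : w ∈ Set.Icc (-η) η
    · rw [Set.indicator_of_mem hw]
      have h2 : (1 + w ^ 2) ^ (-((M:ℝ) * p)) ≤ 1 :=
        Real.rpow_le_one_of_one_le_of_nonpos (by nlinarith [sq_nonneg w]) (by linarith)
      have h3 : KP Δ w * (1 + w ^ 2) ^ (-((M:ℝ) * p)) * G p (t + w) ≤ KP Δ w * G p (t + w) :=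
        mul_le_mul_of_nonneg_right (mul_le_of_le_one_right (KP_nonneg h0 w) h2) hGw
      have h4 : 0 ≤ Δ / η ^ 2 * (EE w * G p (t + w)) := by positivity
      linarith
    · rw [Set.indicator_of_notMem hw, zero_add]
      have h2 : η ^ 2 ≤ w ^ 2 := by
        rw [Set.mem_Icc, not_and_or, not_le, not_le] at hw
        rcases hw with hw | hw
        · nlinarith
        · nlinarith
      have h3 : KP Δ w ≤ Δ / η ^ 2 := by
        unfold KP
        have hpi := Real.pi_gt_three
        rw [div_div, div_le_div_iff₀ (by positivity) (by positivity)]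
        have : η ^ 2 ≤ Real.pi * (w ^ 2 + Δ ^ 2) := by nlinarith [sq_nonneg Δ, sq_nonneg w]
        nlinarith
      calc KP Δ w * (1 + w ^ 2) ^ (-((M:ℝ) * p)) * G p (t + w) ≤ Δ / η ^ 2 * EE w * G p (t + w) := by
            refine mul_le_mul_of_nonneg_right ?_ hGw
            exact mul_le_mul h3 (hw16 w) (by positivity) (by positivity)
        _ = _ := by ring

/-- domination over windows -/
theorem win_dom {p Δ η a b : ℝ} (hp : 0 < p) (hp2 : p ≤ 2) (h0 : 0 < Δ) (h1 : Δ ≤ 1 / 8) (hη : 0 < η) {M : ℕ}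
    (hM : 1 ≤ M) (hMp : 4 ≤ (M:ℝ) * p) (hab : a + η ≤ b - η) :
    fc p Δ M * ∫ t in (a + η)..(b - η), GN p Δ t ≤ (∫ t in a..b, G p t) + Δ / η ^ 2 * ∫ t in a..b, AG p t := by
  have hG := G_cont hp
  have hK := KP_cont h0
  have hN := GN_cont hp h1
  have hA := AG_cont hp hp2
  have hc : Continuous fun t : ℝ => ∫ w in (-η)..η, KP Δ w * G p (t + w) := by
    refine intervalIntegral.continuous_parametric_intervalIntegral_of_continuous' ?_ _ _
    unfold Function.uncurry
    fun_prop
  have s1 : fc p Δ M * ∫ t in (a + η)..(b - η), GN p Δ t ≤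
      (∫ t in (a + η)..(b - η), ∫ w in (-η)..η, KP Δ w * G p (t + w)) +
        Δ / η ^ 2 * ∫ t in (a + η)..(b - η), AG p t := by
    have hA2 : Continuous fun t => Δ / η ^ 2 * AG p t := continuous_const.mul hA
    have hN2 : Continuous fun t => fc p Δ M * GN p Δ t := continuous_const.mul hN
    rw [← intervalIntegral.integral_const_mul, ← intervalIntegral.integral_const_mul,
      ← intervalIntegral.integral_add (hc.intervalIntegrable _ _) (hA2.intervalIntegrable _ _)]
    exact intervalIntegral.integral_mono_on hab (hN2.intervalIntegrable _ _)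
      ((hc.add hA2).intervalIntegrable _ _) fun t _ => pt_dom hp hp2 h0 h1 hη hM hMp t
  have s2 : ∫ t in (a + η)..(b - η), AG p t ≤ ∫ t in a..b, AG p t :=
    intervalIntegral.integral_mono_interval (by linarith) hab (by linarith)
      (Eventually.of_forall fun x => AG_nonneg _ _) (hA.intervalIntegrable _ _)
  have s3 : ∫ t in (a + η)..(b - η), ∫ w in (-η)..η, KP Δ w * G p (t + w) ≤ ∫ t in a..b, G p t := by
    rw [Pool.Agent.Y568.UP.swap_cont (F := fun t w => KP Δ w * G p (t + w)) (by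
      unfold Function.uncurry; fun_prop)]
    have hI0 : 0 ≤ ∫ t in a..b, G p t := intervalIntegral.integral_nonneg (by linarith) fun x _ => G_nonneg _ _
    calc ∫ w in (-η)..η, ∫ t in (a + η)..(b - η), KP Δ w * G p (t + w) ≤
        ∫ w in (-η)..η, KP Δ w * ∫ t in a..b, G p t := by
          refine intervalIntegral.integral_mono_on (by linarith) ?_ ?_ fun w hw => ?_
          · refine Continuous.intervalIntegrable ?_ _ _
            refine intervalIntegral.continuous_parametric_intervalIntegral_of_continuous' ?_ _ _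
            unfold Function.uncurry
            fun_prop
          · exact Continuous.intervalIntegrable (by fun_prop) _ _
          · rw [intervalIntegral.integral_const_mul, intervalIntegral.integral_comp_add_right (fun x => G p x)]
            refine mul_le_mul_of_nonneg_left ?_ (KP_nonneg h0 w)
            exact intervalIntegral.integral_mono_interval (by linarith [hw.1]) (by linarith)
              (by linarith [hw.2]) (Eventually.of_forall fun x => G_nonneg _ _) (G_ii hp _ _)
      _ = (∫ w in (-η)..η, KP Δ w) * ∫ t in a..b, G p t := by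
          rw [intervalIntegral.integral_mul_const]
      _ ≤ 1 * ∫ t in a..b, G p t := by
          refine mul_le_mul_of_nonneg_right ?_ hI0
          rw [intervalIntegral.integral_of_le (by linarith), ← (KP_int h0).2]
          exact setIntegral_le_integral (KP_int h0).1 (ae_of_all _ fun w => KP_nonneg h0 w)
      _ = _ := one_mul _
  have h3 : 0 ≤ Δ / η ^ 2 := by positivity
  nlinarith

/-- the constant is at least `1/2` near the critical line -/
theorem fc_half (p : ℝ) (M : ℕ) : ∃ δ : ℝ, 0 < δ ∧ ∀ Δ : ℝ, 0 ≤ Δ → Δ ≤ δ → 1 / 2 ≤ fc p Δ M := by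
  have hc : ContinuousAt (fun Δ : ℝ => fc p Δ M) 0 := by
    unfold fc
    refine ContinuousAt.rpow_const ?_ (Or.inl ?_)
    · refine ContinuousAt.div (by fun_prop) (by fun_prop) (by simp)
    · simp
  have h1 : fc p 0 M = 1 := by unfold fc; simp
  have h2 : ∀ᶠ Δ in 𝓝 (0:ℝ), 1 / 2 < fc p Δ M := hc.eventually (lt_mem_nhds (by
    show 1 / 2 < fc p 0 M
    rw [h1]; norm_num))
  obtain ⟨δ, hδ, h3⟩ := Metric.eventually_nhds_iff.1 h2
  refine ⟨δ / 2, by linarith, fun Δ ha hb => (h3 ?_).le⟩
  rw [Real.dist_eq, sub_zero, abs_of_nonneg ha]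
  linarith

end Run7.h311.LM.Low
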