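import Pool.Agent.Run7.h311.LM.Near
import Pool.Agent.Run7.h311.LM.Low
import Pool.Agent.Run7.h311.LM.Wk

set_option autoImplicit false

/-!
# The order of the moments over almost all windows of the critical line
-/

namespace Run7.h311.LM.Final

open Filter MeasureTheory Topology Complex
open Run7.h311.LM.Up Run7.h311.LM.Low
open Pool.Agent.N748.GC (Zn aa)

theorem fin_sub {S : Set ℝ} {X : ℝ} (hS : S ⊆ Set.Icc 0 X) : volume S ≠ ⊤ :=
  ((measure_mono hS).trans_lt (by rw [Real.volume_Icc]; exact ENNReal.ofReal_lt_top)).ne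

/-- the sum over windows of a nonnegative function -/
theorem win_total {g : ℝ → ℝ} (hg : Continuous g) (hg0 : ∀ x, 0 ≤ g x) {X h : ℝ} (hX : 0 ≤ X) (hh : 0 ≤ h) :
    ∫ t in (0:ℝ)..X, ∫ s in t..(t + h), g s ≤ h * ∫ s in (0:ℝ)..(X + h), g s := by
  have h1 : ∀ t : ℝ, ∫ s in t..(t + h), g s = ∫ x in (0:ℝ)..h, g (t + x) := by
    intro t
    rw [intervalIntegral.integral_comp_add_left (fun s => g s), add_zero]
  simp_rw [h1]
  rw [Pool.Agent.Y568.UP.swap_cont (F := fun t x => g (t + x)) (by unfold Function.uncurry; fun_prop)]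
  calc ∫ x in (0:ℝ)..h, ∫ t in (0:ℝ)..X, g (t + x) ≤ ∫ x in (0:ℝ)..h, ∫ s in (0:ℝ)..(X + h), g s := by
        refine intervalIntegral.integral_mono_on hh ?_ intervalIntegrable_const fun x hx => ?_
        · refine Continuous.intervalIntegrable ?_ _ _
          refine intervalIntegral.continuous_parametric_intervalIntegral_of_continuous' ?_ _ _
          unfold Function.uncurry
          fun_prop
        · rw [intervalIntegral.integral_comp_add_right (fun s => g s)]
          exact intervalIntegral.integral_mono_interval (by linarith [hx.1]) (by linarith)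
            (by linarith [hx.2]) (Eventually.of_forall fun x => hg0 x) (hg.intervalIntegrable _ _)
    _ = h * ∫ s in (0:ℝ)..(X + h), g s := by
        rw [intervalIntegral.integral_const, sub_zero, smul_eq_mul]

theorem win_cont {g : ℝ → ℝ} (hg : Continuous g) (h : ℝ) : Continuous fun t => ∫ s in t..(t + h), g s := by
  have h1 : (fun t => ∫ s in t..(t + h), g s) = fun t => ∫ x in (0:ℝ)..h, g (t + x) := by
    funext t
    rw [intervalIntegral.integral_comp_add_left (fun s => g s), add_zero]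
  rw [h1]
  refine intervalIntegral.continuous_parametric_intervalIntegral_of_continuous' ?_ _ _
  unfold Function.uncurry
  fun_prop

/-- logarithms of multiples -/
theorem log_mul_le {T k : ℝ} (hk : 1 ≤ k) (hT : k ≤ T) (α : ℝ) :
    Real.log (k * T) ^ (α ^ 2) ≤ 2 ^ (α ^ 2) * Real.log T ^ (α ^ 2) := by
  have h1 : 0 ≤ Real.log T := Real.log_nonneg (hk.trans hT)
  rw [← Real.mul_rpow (by norm_num) h1]
  have hkT : 0 ≤ Real.log (k * T) := Real.log_nonneg (by nlinarith)
  refine Real.rpow_le_rpow hkT ?_ (by positivity)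
  rw [Real.log_mul (by linarith) (by linarith)]
  have : Real.log k ≤ Real.log T := Real.log_le_log (by linarith) hT
  linarith

/-- windows of fixed length with a small moment are rare -/
theorem bad_low {α : ℝ} (hα : 0 < α) (hα1 : α < 1) {h : ℝ} (hh : 0 < h) (hh1 : h ≤ 1) {ε : ℝ} (hε : 0 < ε) :
    ∃ c : ℝ, 0 < c ∧ ∀ᶠ T : ℝ in atTop,
      volume.real {t | t ∈ Set.Icc 0 (3 * T) ∧ ∫ s in t..(t + h), G (2 * α) s < c * Real.log T ^ (α ^ 2)} ≤
        ε * T := by
  have hp : 0 < 2 * α := by linarith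
  have hp2 : 2 * α ≤ 2 := by linarith
  obtain ⟨c, lam, δ0, hc, hlam, hδ0, hδ1, hev⟩ := Near.near_low hα hα1 hh hh1 (ε := ε / 6) (by linarith)
  obtain ⟨C, hC, hAG⟩ := AG_total hα hα1.le
  have ha : 0 < aa α := Pool.Agent.H306R2.aF_pos hα
  have hlam0 : 0 < lam := by linarith
  set κ : ℝ := aa α / (2 * lam) ^ (α ^ 2) with hκ
  have hκ0 : 0 < κ := by positivity
  set M : ℕ := ⌈4 / (2 * α)⌉₊ with hM
  have hM1 : 1 ≤ M := Nat.one_le_ceil_iff.2 (by positivity)
  have hMp : 4 ≤ (M:ℝ) * (2 * α) := by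
    rw [← div_le_iff₀ hp]; exact Nat.le_ceil _
  obtain ⟨δ2, hδ2, hfc⟩ := fc_half (2 * α) M
  have h3 : Tendsto (fun T : ℝ => 3 * T) atTop atTop := tendsto_id.const_mul_atTop (by norm_num)
  have h4 : Tendsto (fun T : ℝ => 4 * T) atTop atTop := tendsto_id.const_mul_atTop (by norm_num)
  have hlog : Tendsto Real.log atTop atTop := Real.tendsto_log_atTop
  have hdel : Tendsto (fun T : ℝ => lam / Real.log T) atTop (𝓝 0) := hlog.const_div_atTop lam
  set D : ℝ := 4 / (κ * c) * (h / (h / 4) ^ 2) * (C * 4 * 2 ^ (α ^ 2)) with hD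
  have hD0 : 0 < D := by positivity
  refine ⟨κ * c / 4, by positivity, ?_⟩
  filter_upwards [h3.eventually hev, h4.eventually hAG, eventually_ge_atTop 4, hlog.eventually_ge_atTop 1,
    hdel.eventually (gt_mem_nhds (lt_min (lt_min hδ0 hδ2) (show 0 < ε / (2 * D) by positivity)))]
    with T g1 g2 g3 g4 g5
  have hT0 : 0 < T := by linarith
  have hL : 0 < Real.log T := by linarith
  set Δ : ℝ := lam / Real.log T with hΔ
  have hΔ0 : 0 < Δ := by positivity
  have hΔa : Δ ≤ δ0 := g5.le.trans ((min_le_left _ _).trans (min_le_left _ _))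
  have hΔb : Δ ≤ δ2 := g5.le.trans ((min_le_left _ _).trans (min_le_right _ _))
  have hΔc : Δ ≤ ε / (2 * D) := g5.le.trans (min_le_right _ _)
  have hΔ8 : Δ ≤ 1 / 8 := by linarith
  set S : ℝ := Real.log T ^ (α ^ 2) with hS
  have hS0 : 0 < S := by positivity
  have hA := AG_cont hp hp2
  have hGc := G_cont hp
  -- the constants
  have hZ : ∀ u : ℝ, GN (2 * α) Δ u = κ * S * Zn α Δ u := by
    intro u
    unfold Zn GN
    have e1 : (2 * Δ) ^ (α ^ 2) = (2 * lam) ^ (α ^ 2) / S := by
      rw [hΔ, ← mul_div_assoc, Real.div_rpow (by positivity) hL.le]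
    have e2 : (((1 / 2 + Δ : ℝ) : ℂ) + u * I) = 1 / 2 + (Δ : ℂ) + u * I := by push_cast; ring
    rw [e1, e2, hκ]
    have h5 : 0 < (2 * lam) ^ (α ^ 2) := by positivity
    field_simp
  -- the near-line windows
  have m1 := g1 Δ (by
    rw [hΔ]
    exact div_le_div_of_nonneg_left hlam0.le hL (Real.log_le_log hT0 (by linarith))) hΔa
  -- the error term
  set g : ℝ → ℝ := fun t => Δ / (h / 4) ^ 2 * ∫ s in t..(t + h), AG (2 * α) s with hg
  have hgc : Continuous g := continuous_const.mul (win_cont hA h)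
  have hg0 : ∀ t, 0 ≤ g t := fun t => mul_nonneg (by positivity)
    (intervalIntegral.integral_nonneg (by linarith) fun x _ => AG_nonneg _ _)
  have m2 := Near.markov hgc hg0 (X := 3 * T) (c := κ * c / 4 * S) (by linarith) (by positivity)
  have m3 : ∫ t in (0:ℝ)..(3 * T), g t ≤ Δ / (h / 4) ^ 2 * (h * (C * 4 * 2 ^ (α ^ 2) * (T * S))) := by
    rw [hg, intervalIntegral.integral_const_mul]
    refine mul_le_mul_of_nonneg_left ?_ (by positivity)
    refine (win_total hA (fun x => AG_nonneg _ _) (by linarith) hh.le).trans ?_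
    refine mul_le_mul_of_nonneg_left ?_ hh.le
    have e1 : ∫ s in (0:ℝ)..(3 * T + h), AG (2 * α) s ≤ ∫ s in (0:ℝ)..(4 * T), AG (2 * α) s :=
      intervalIntegral.integral_mono_interval le_rfl (by linarith) (by linarith)
        (Eventually.of_forall fun x => AG_nonneg _ _) (hA.intervalIntegrable _ _)
    refine e1.trans (g2.trans ?_)
    have e2 := log_mul_le (k := 4) (by norm_num) g3 α
    calc C * (4 * T * Real.log (4 * T) ^ (α ^ 2)) ≤ C * (4 * T * (2 ^ (α ^ 2) * S)) := by gcongr
      _ = _ := by ring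
  have m4 : volume.real {t | t ∈ Set.Icc 0 (3 * T) ∧ κ * c / 4 * S ≤ g t} ≤ ε / 2 * T := by
    have hk : 0 < κ * c / 4 * S := by positivity
    refine le_of_mul_le_mul_right ?_ hk
    refine m2.trans (m3.trans ?_)
    have e3 : Δ * D ≤ ε / 2 := by
      calc Δ * D ≤ ε / (2 * D) * D := mul_le_mul_of_nonneg_right hΔc hD0.le
        _ = ε / 2 := by field_simp
    calc Δ / (h / 4) ^ 2 * (h * (C * 4 * 2 ^ (α ^ 2) * (T * S))) = (Δ * D) * T * (κ * c / 4 * S) := by
          rw [hD]; field_simp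
      _ ≤ ε / 2 * T * (κ * c / 4 * S) := by gcongr
  have hsub : {t | t ∈ Set.Icc 0 (3 * T) ∧ ∫ s in t..(t + h), G (2 * α) s < κ * c / 4 * S} ⊆
      {t | t ∈ Set.Icc 0 (3 * T) ∧ ∫ x in (h / 4)..(3 * h / 4), Zn α Δ (t + x) < c} ∪
        {t | t ∈ Set.Icc 0 (3 * T) ∧ κ * c / 4 * S ≤ g t} := by
    rintro t ⟨ht, hw⟩
    by_cases hd : κ * c / 4 * S ≤ g t
    · exact Or.inr ⟨ht, hd⟩
    · left
      refine ⟨ht, ?_⟩
      push Not at hd
      have b1 := win_dom (a := t) (b := t + h) (η := h / 4) hp hp2 hΔ0 hΔ8 (by linarith) hM1 hMp (by linarith)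
      have b2 : ∫ s in (t + h / 4)..(t + h - h / 4), GN (2 * α) Δ s =
          κ * S * ∫ x in (h / 4)..(3 * h / 4), Zn α Δ (t + x) := by
        simp_rw [hZ]
        rw [intervalIntegral.integral_const_mul, intervalIntegral.integral_comp_add_left (fun s => Zn α Δ s)]
        congr 2
        ring
      rw [b2] at b1
      set Z := ∫ x in (h / 4)..(3 * h / 4), Zn α Δ (t + x) with hZd
      have hZ0 : 0 ≤ Z := intervalIntegral.integral_nonneg (by linarith) fun x _ =>
        Near.Zn_nonneg hα hΔ0.le _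
      have b3 : 1 / 2 * (κ * S * Z) ≤ fc (2 * α) Δ M * (κ * S * Z) :=
        mul_le_mul_of_nonneg_right (hfc Δ hΔ0.le hΔb) (by positivity)
      have b4 : 1 / 2 * (κ * S * Z) < κ * c / 4 * S + κ * c / 4 * S := by
        have : g t = Δ / (h / 4) ^ 2 * ∫ s in t..(t + h), AG (2 * α) s := rfl
        linarith
      have b5 : κ * S * Z < κ * S * c := by linarith
      exact lt_of_mul_lt_mul_left b5 (by positivity)
  calc _ ≤ volume.real ({t | t ∈ Set.Icc 0 (3 * T) ∧ ∫ x in (h / 4)..(3 * h / 4), Zn α Δ (t + x) < c} ∪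
        {t | t ∈ Set.Icc 0 (3 * T) ∧ κ * c / 4 * S ≤ g t}) :=
        measureReal_mono hsub (fin_sub (Set.union_subset (fun t ht => ht.1) (fun t ht => ht.1)))
    _ ≤ _ := measureReal_union_le _ _
    _ ≤ ε / 6 * (3 * T) + ε / 2 * T := add_le_add m1 m4
    _ = ε * T := by ring

/-- windows of length at least `h` with a small moment -/
theorem low_all {α : ℝ} (hα : 0 < α) (hα1 : α < 1) {h : ℝ} (hh : 0 < h) {ε : ℝ} (hε : 0 < ε) :
    ∃ c : ℝ, 0 < c ∧ ∀ᶠ T : ℝ in atTop,
      volume.real {t | t ∈ Set.Icc 0 T ∧ ∃ H, h ≤ H ∧ H ≤ T ∧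
        ∫ s in t..(t + H), G (2 * α) s < c * Real.log T ^ (α ^ 2) * H} ≤ ε * T := by
  have hp : 0 < 2 * α := by linarith
  have hGc := G_cont hp
  set l : ℝ := min h 1 / 2 with hl
  have hl0 : 0 < l := by positivity
  have hl1 : l ≤ 1 := by
    have := min_le_right h 1
    linarith
  have hl2 : 2 * l ≤ h := by
    have := min_le_left h 1
    linarith
  obtain ⟨c, hc, hev⟩ := bad_low hα hα1 hl0 hl1 (ε := ε / 6) (by linarith)
  have hlog : Tendsto Real.log atTop atTop := Real.tendsto_log_atTop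
  refine ⟨c / (16 * l), by positivity, ?_⟩
  filter_upwards [hev, eventually_ge_atTop 4, hlog.eventually_ge_atTop 1] with T g1 g2 g3
  have hT0 : 0 < T := by linarith
  set S : ℝ := Real.log T ^ (α ^ 2) with hS
  have hS0 : 0 < S := by positivity
  set g2f : ℝ → ℝ := fun t => ∫ s in t..(t + l), G (2 * α) s with hg2
  have hg2c : Continuous g2f := win_cont hGc l
  have hg20 : ∀ t, 0 ≤ g2f t := fun t => intervalIntegral.integral_nonneg (by linarith) fun x _ => G_nonneg _ _
  set B : ℝ := c * S / 2 with hB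
  have hB0 : 0 < B := by positivity
  set ψ : ℝ → ℝ := fun t => Pool.Agent.N748.GC.ct B (g2f t) with hψ
  have hψc : Continuous ψ := by
    have : Continuous (Pool.Agent.N748.GC.ct B) := by unfold Pool.Agent.N748.GC.ct; fun_prop
    exact this.comp hg2c
  have hψ0 : ∀ t, 0 ≤ ψ t := fun t => le_max_left _ _
  have hψ1 : ∀ t, ψ t ≤ 1 := fun t => max_le zero_le_one (min_le_left _ _)
  have hψi : ∫ t in (0:ℝ)..(3 * T), ψ t ≤ ε / 6 * T := by
    refine le_trans ?_ g1
    have hms : MeasurableSet {t | g2f t < c * S} := measurableSet_lt hg2c.measurable measurable_const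
    have e1 : volume.real {t | t ∈ Set.Icc 0 (3 * T) ∧ g2f t < c * S} =
        ∫ t in Set.Icc 0 (3 * T), ({t | g2f t < c * S}).indicator 1 t := by
      rw [integral_indicator_one hms, measureReal_restrict_apply hms]
      congr 1
      ext t
      simp only [Set.mem_ofPred_eq, Set.mem_inter_iff]
      tauto
    rw [e1, intervalIntegral.integral_of_le (by linarith), ← integral_Icc_eq_integral_Ioc]
    refine integral_mono hψc.integrableOn_Icc
      ((integrable_const (1:ℝ)).indicator hms) fun t => ?_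
    by_cases ht : g2f t < c * S
    · rw [Set.indicator_of_mem (by exact ht)]; exact hψ1 t
    · rw [Set.indicator_of_notMem (by exact ht)]
      refine le_of_eq ?_
      simp only [hψ, Pool.Agent.N748.GC.ct]
      refine max_eq_left ((min_le_right _ _).trans ?_)
      rw [sub_nonpos, le_div_iff₀ hB0]
      linarith [not_lt.1 ht]
  have hw := Wk.weak hψc hψ0 (l := l) (X := 2 * T) (c := 1 / 2) hl0 (by linarith) (by norm_num)
  have hsub : {t | t ∈ Set.Icc 0 T ∧ ∃ H, h ≤ H ∧ H ≤ T ∧
      ∫ s in t..(t + H), G (2 * α) s < c / (16 * l) * S * H} ⊆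
      {t | 0 ≤ t ∧ t ≤ 2 * T ∧ ∃ H, l ≤ H ∧ t + H ≤ 2 * T ∧ 1 / 2 * H < ∫ s in t..(t + H), ψ s} := by
    rintro t ⟨ht, H, hH1, hH2, hH3⟩
    refine ⟨ht.1, by linarith [ht.2], H - l, by linarith, by linarith [ht.2], ?_⟩
    by_contra hcon
    push Not at hcon
    -- the double integral
    have d1 : ∫ s in t..(t + (H - l)), g2f s ≤ l * ∫ s in t..(t + H), G (2 * α) s := by
      have e1 : ∀ s : ℝ, g2f s = ∫ x in (0:ℝ)..l, G (2 * α) (s + x) := by
        intro s
        rw [intervalIntegral.integral_comp_add_left (fun s => G (2 * α) s), add_zero]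
      simp_rw [e1]
      rw [Pool.Agent.Y568.UP.swap_cont (F := fun t x => G (2 * α) (t + x)) (by
        unfold Function.uncurry; fun_prop)]
      calc ∫ x in (0:ℝ)..l, ∫ s in t..(t + (H - l)), G (2 * α) (s + x) ≤
          ∫ x in (0:ℝ)..l, ∫ s in t..(t + H), G (2 * α) s := by
            refine intervalIntegral.integral_mono_on hl0.le ?_ intervalIntegrable_const fun x hx => ?_
            · refine Continuous.intervalIntegrable ?_ _ _
              refine intervalIntegral.continuous_parametric_intervalIntegral_of_continuous' ?_ _ _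
              unfold Function.uncurry
              fun_prop
            · rw [intervalIntegral.integral_comp_add_right (fun s => G (2 * α) s)]
              exact intervalIntegral.integral_mono_interval (by linarith [hx.1]) (by linarith)
                (by linarith [hx.2]) (Eventually.of_forall fun x => G_nonneg _ _) (hGc.intervalIntegrable _ _)
        _ = l * ∫ s in t..(t + H), G (2 * α) s := by
            rw [intervalIntegral.integral_const, sub_zero, smul_eq_mul]
    have d2 : ∀ s, B * (1 - ψ s) ≤ g2f s := by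
      intro s
      rcases le_total (g2f s) B with hs | hs
      · have : ψ s = 1 := by
          simp only [hψ, Pool.Agent.N748.GC.ct]
          have h1 : g2f s / B ≤ 1 := by rw [div_le_one hB0]; exact hs
          rw [min_eq_left (by linarith), max_eq_right zero_le_one]
        rw [this, sub_self, mul_zero]; exact hg20 s
      · have := hψ0 s
        nlinarith
    have d3 : ∫ s in t..(t + (H - l)), B * (1 - ψ s) ≤ ∫ s in t..(t + (H - l)), g2f s :=
      intervalIntegral.integral_mono_on (by linarith) (Continuous.intervalIntegrable (by fun_prop) _ _)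
        (hg2c.intervalIntegrable _ _) fun s _ => d2 s
    have d4 : ∫ s in t..(t + (H - l)), B * (1 - ψ s) = B * ((H - l) - ∫ s in t..(t + (H - l)), ψ s) := by
      rw [intervalIntegral.integral_const_mul, intervalIntegral.integral_sub intervalIntegrable_const
        (hψc.intervalIntegrable _ _), intervalIntegral.integral_const, smul_eq_mul, mul_one]
      ring
    have d5 : B * (H / 4) ≤ B * ((H - l) - ∫ s in t..(t + (H - l)), ψ s) :=
      mul_le_mul_of_nonneg_left (by linarith) hB0.le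
    have d6 : l * ∫ s in t..(t + H), G (2 * α) s < l * (c / (16 * l) * S * H) :=
      mul_lt_mul_of_pos_left hH3 hl0
    have d7 : l * (c / (16 * l) * S * H) = B * (H / 8) := by
      rw [hB]; field_simp; ring
    have hHp : 0 < H := by linarith
    have d8 : B * (H / 8) < B * (H / 4) := mul_lt_mul_of_pos_left (by linarith) hB0
    linarith
  have hI : ∫ s in (0:ℝ)..(2 * T + l), ψ s ≤ ∫ t in (0:ℝ)..(3 * T), ψ t :=
    intervalIntegral.integral_mono_interval le_rfl (by linarith) (by linarith)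
      (Eventually.of_forall fun x => hψ0 x) (hψc.intervalIntegrable _ _)
  have hm := measureReal_mono (μ := volume) hsub (fin_sub (X := 2 * T) fun t ht => ⟨ht.1, ht.2.1⟩)
  linarith

/-- windows of length at least `h` with a large moment -/
theorem up_all {α : ℝ} (hα : 0 < α) (hα1 : α ≤ 2) {h : ℝ} (hh : 0 < h) {ε : ℝ} (hε : 0 < ε) :
    ∃ C : ℝ, 0 < C ∧ ∀ᶠ T : ℝ in atTop,
      volume.real {t | t ∈ Set.Icc 0 T ∧ ∃ H, h ≤ H ∧ H ≤ T ∧
        C * Real.log T ^ (α ^ 2) * H < ∫ s in t..(t + H), G (2 * α) s} ≤ ε * T := by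
  have hp : 0 < 2 * α := by linarith
  have hGc := G_cont hp
  obtain ⟨C, hC, hev⟩ := total hα hα1
  have h3 : Tendsto (fun T : ℝ => 3 * T) atTop atTop := tendsto_id.const_mul_atTop (by norm_num)
  have hlog : Tendsto Real.log atTop atTop := Real.tendsto_log_atTop
  set D : ℝ := 3 * (C * (3 * 2 ^ (α ^ 2))) / ε with hD
  have hD0 : 0 < D := by positivity
  refine ⟨D, hD0, ?_⟩
  filter_upwards [h3.eventually hev, eventually_ge_atTop 3, eventually_ge_atTop h, hlog.eventually_ge_atTop 1]
    with T g1 g2 g3 g4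
  have hT0 : 0 < T := by linarith
  set S : ℝ := Real.log T ^ (α ^ 2) with hS
  have hS0 : 0 < S := by positivity
  have hw := Wk.weak hGc (G_nonneg _) (l := h) (X := 2 * T) (c := D * S) hh (by linarith) (by positivity)
  have hsub : {t | t ∈ Set.Icc 0 T ∧ ∃ H, h ≤ H ∧ H ≤ T ∧ D * S * H < ∫ s in t..(t + H), G (2 * α) s} ⊆
      {t | 0 ≤ t ∧ t ≤ 2 * T ∧ ∃ H, h ≤ H ∧ t + H ≤ 2 * T ∧ D * S * H < ∫ s in t..(t + H), G (2 * α) s} := by
    rintro t ⟨ht, H, hH1, hH2, hH3⟩
    exact ⟨ht.1, by linarith [ht.2], H, hH1, by linarith [ht.2], hH3⟩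
  have hm := measureReal_mono (μ := volume) hsub (fin_sub (X := 2 * T) fun t ht => ⟨ht.1, ht.2.1⟩)
  have hI : ∫ s in (0:ℝ)..(2 * T + h), G (2 * α) s ≤ ∫ t in (0:ℝ)..(3 * T), G (2 * α) t :=
    intervalIntegral.integral_mono_interval le_rfl (by linarith) (by linarith)
      (Eventually.of_forall fun x => G_nonneg _ x) (hGc.intervalIntegrable _ _)
  have hI2 : ∫ t in (0:ℝ)..(3 * T), G (2 * α) t ≤ C * (3 * 2 ^ (α ^ 2)) * (T * S) := by
    refine g1.trans ?_
    have e2 := log_mul_le (k := 3) (by norm_num) g2 α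
    calc C * (3 * T * Real.log (3 * T) ^ (α ^ 2)) ≤ C * (3 * T * (2 ^ (α ^ 2) * S)) := by gcongr
      _ = _ := by ring
  refine le_of_mul_le_mul_right ?_ (show 0 < D * S by positivity)
  calc _ ≤ volume.real {t | 0 ≤ t ∧ t ≤ 2 * T ∧ ∃ H, h ≤ H ∧ t + H ≤ 2 * T ∧
        D * S * H < ∫ s in t..(t + H), G (2 * α) s} * (D * S) := mul_le_mul_of_nonneg_right hm (by positivity)
    _ ≤ 3 * (C * (3 * 2 ^ (α ^ 2)) * (T * S)) := by linarith
    _ = ε * T * (D * S) := by rw [hD]; field_simp

end Run7.h311.LM.Final
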