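import Pool.Agent.Run7.h311.LM.Pos
import Pool.Agent.H306R2.EPLim

set_option autoImplicit false

/-!
# Lower bounds for the local moments near the critical line, for most positions of the window
-/

namespace Run7.h311.LM.Near

open Finset Filter MeasureTheory Topology Complex
open Pool.Agent.N748.GC

/-- the bump in the middle of `[0, h]` -/
noncomputable def bump (h x : ℝ) : ℝ := max 0 (1 - |x - h / 2| * (4 / h))

theorem bump_cont (h : ℝ) : Continuous (bump h) := by unfold bump; fun_prop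

theorem bump_nonneg (h x : ℝ) : 0 ≤ bump h x := le_max_left _ _

theorem bump_le {h : ℝ} (hh : 0 < h) (x : ℝ) : bump h x ≤ 1 := by
  unfold bump
  refine max_le zero_le_one ?_
  have : 0 ≤ |x - h / 2| * (4 / h) := by positivity
  linarith

theorem bump_zero {h x : ℝ} (hh : 0 < h) (hx : h / 4 ≤ |x - h / 2|) : bump h x = 0 := by
  unfold bump
  refine max_eq_left ?_
  have h1 : h / 4 * (4 / h) = 1 := by field_simp
  have h2 : h / 4 * (4 / h) ≤ |x - h / 2| * (4 / h) := mul_le_mul_of_nonneg_right hx (by positivity)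
  linarith

theorem bump_int {h : ℝ} (hh : 0 < h) (hh1 : h ≤ 1) : 0 < ∫ x in (0:ℝ)..1, bump h x := by
  refine intervalIntegral.integral_pos zero_lt_one (bump_cont h).continuousOn
    (fun x _ => bump_nonneg h x) ⟨h / 2, ⟨by linarith, by linarith⟩, ?_⟩
  unfold bump
  simp

/-- the bump and the window -/
theorem bump_window {h : ℝ} (hh : 0 < h) (hh1 : h ≤ 1) {g : ℝ → ℝ} (hg : Continuous g) (hg0 : ∀ x, 0 ≤ g x) :
    ∫ x in (0:ℝ)..1, bump h x * g x ≤ ∫ x in (h / 4)..(3 * h / 4), g x := by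
  have hc : Continuous fun x => bump h x * g x := (bump_cont h).mul hg
  have e1 := intervalIntegral.integral_add_adjacent_intervals (μ := volume)
    (hc.intervalIntegrable 0 (h / 4)) (hc.intervalIntegrable (h / 4) (3 * h / 4))
  have e2 := intervalIntegral.integral_add_adjacent_intervals (μ := volume)
    (hc.intervalIntegrable 0 (3 * h / 4)) (hc.intervalIntegrable (3 * h / 4) 1)
  have e3 : ∫ x in (0:ℝ)..(h / 4), bump h x * g x = 0 := by
    have : ∫ x in (0:ℝ)..(h / 4), bump h x * g x = ∫ x in (0:ℝ)..(h / 4), (0:ℝ) := by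
      refine intervalIntegral.integral_congr fun x hx => ?_
      rw [Set.uIcc_of_le (by linarith)] at hx
      rw [bump_zero hh, zero_mul]
      rw [abs_sub_comm, abs_of_nonneg (by linarith [hx.2])]
      linarith [hx.2]
    rw [this]; simp
  have e4 : ∫ x in (3 * h / 4)..1, bump h x * g x = 0 := by
    have : ∫ x in (3 * h / 4)..1, bump h x * g x = ∫ x in (3 * h / 4)..1, (0:ℝ) := by
      refine intervalIntegral.integral_congr fun x hx => ?_
      rw [Set.uIcc_of_le (by linarith)] at hx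
      rw [bump_zero hh, zero_mul]
      rw [abs_of_nonneg (by linarith [hx.1])]
      linarith [hx.1]
    rw [this]; simp
  have e5 : ∫ x in (h / 4)..(3 * h / 4), bump h x * g x ≤ ∫ x in (h / 4)..(3 * h / 4), g x := by
    refine intervalIntegral.integral_mono_on (by linarith) (hc.intervalIntegrable _ _)
      (hg.intervalIntegrable _ _) fun x _ => ?_
    exact mul_le_of_le_one_left (hg0 x) (bump_le hh x)
  linarith

theorem Zn_nonneg {α δ : ℝ} (hα : 0 < α) (hδ : 0 ≤ δ) (u : ℝ) : 0 ≤ Zn α δ u := by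
  unfold Zn
  have h1 : 0 < aa α := Pool.Agent.H306R2.aF_pos hα
  positivity

/-- Markov's inequality on an interval -/
theorem markov {g : ℝ → ℝ} (hg : Continuous g) (hg0 : ∀ x, 0 ≤ g x) {X c : ℝ} (hX : 0 ≤ X) (_hc : 0 < c) :
    volume.real {t | t ∈ Set.Icc 0 X ∧ c ≤ g t} * c ≤ ∫ t in (0:ℝ)..X, g t := by
  have hi : IntegrableOn g (Set.Icc 0 X) := hg.integrableOn_Icc
  have h1 := mul_meas_ge_le_integral_of_nonneg (μ := volume.restrict (Set.Icc 0 X)) (f := g)
    (ae_of_all _ hg0) hi c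
  rw [intervalIntegral.integral_of_le hX, ← integral_Icc_eq_integral_Ioc]
  refine le_trans (le_of_eq ?_) h1
  rw [mul_comm]
  congr 1
  unfold Measure.real
  congr 1
  rw [Measure.restrict_apply (measurableSet_le measurable_const hg.measurable)]
  congr 1
  ext t
  simp only [Set.mem_ofPred_eq, Set.mem_inter_iff]
  tauto

theorem near_low {α : ℝ} (hα : 0 < α) (hα1 : α < 1) {h : ℝ} (hh : 0 < h) (hh1 : h ≤ 1) {ε : ℝ} (hε : 0 < ε) :
    ∃ c lam δ0 : ℝ, 0 < c ∧ 1 ≤ lam ∧ 0 < δ0 ∧ δ0 ≤ 1 / 16 ∧ ∀ᶠ X : ℝ in atTop, ∀ δ : ℝ,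
      lam / Real.log X ≤ δ → δ ≤ δ0 →
      volume.real {t | t ∈ Set.Icc 0 X ∧ ∫ x in (h / 4)..(3 * h / 4), Zn α δ (t + x) < c} ≤ ε * X := by
  have hf := bump_cont h
  obtain ⟨c, hc, z0, hz0⟩ := Pos.psi_low hα hα1 hf (bump_nonneg h) (bump_int hh hh1) (ε := ε / 4) (by linarith)
  obtain ⟨z1, hz1⟩ := coreF α hα hα1 (ε * c / 8) (by positivity)
  set z := max z0 z1 with hz
  obtain ⟨lam, δ0, hlam, hδ0, hδ1, hev⟩ := hz1 z (le_max_right _ _)
  have hP := hz0 z (le_max_left _ _)
  set F : UnitAddTorus (Sm z) → ℝ := fun y => ct (c / 2) (LAM.Psi α (bump h) z y) with hF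
  have hct : Continuous (ct (c / 2)) := by unfold ct; fun_prop
  have hFc : Continuous F := hct.comp (LAM.Psi_cont α hf z)
  have hF0 : ∀ y, 0 ≤ F y := fun y => le_max_left _ _
  have hF1 : ∀ y, F y ≤ 1 := fun y => max_le zero_le_one (min_le_left _ _)
  have hFi : ∫ y, F y ∂(HP (Sm z)) ≤ ε / 4 := by
    have hms : MeasurableSet {y | LAM.Psi α (bump h) z y < c} :=
      measurableSet_lt (LAM.Psi_cont α hf z).measurable measurable_const
    refine le_trans ?_ hP
    rw [← integral_indicator_one hms]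
    refine integral_mono (AS.int_of_cont _ hFc) ((integrable_const (1:ℝ)).indicator hms) fun y => ?_
    by_cases hy : LAM.Psi α (bump h) z y < c
    · rw [Set.indicator_of_mem (by exact hy)]; exact hF1 y
    · rw [Set.indicator_of_notMem (by exact hy)]
      refine le_of_eq ?_
      simp only [hF, ct]
      refine max_eq_left ((min_le_right _ _).trans ?_)
      rw [div_div_eq_mul_div, sub_nonpos, le_div_iff₀ hc]
      linarith [not_lt.1 hy]
  obtain ⟨H0, hH0, hE⟩ := ERG.main (Sm z) (RZ.Sm_prime z) F hFc (ε / 4) (by linarith)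
  refine ⟨c / 4, lam, δ0, by linarith, hlam, hδ0, hδ1, ?_⟩
  filter_upwards [hev, eventually_ge_atTop H0, eventually_gt_atTop 1] with X h1 h2 h3 δ hd1 hd2
  have hX0 : 0 < X := by linarith
  have hδp : 0 < δ := lt_of_lt_of_le (div_pos (by linarith) (Real.log_pos h3)) hd1
  have hδ16 : δ ≤ 1 / 16 := hd2.trans hδ1
  have a1 := h1 δ hd1 hd2 (bump h) hf.measurable (fun x => by
    rw [abs_of_nonneg (bump_nonneg h x)]; exact bump_le hh x)
  have hZ := LAM.Zn_cont hα hδ16
  have hm := LAM.mz_cont α z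
  have a2 := hE X h2 0
  rw [zero_add] at a2
  have a3 : ∫ u in (0:ℝ)..X, F (pt (Sm z) u) ≤ ε / 2 * X := by
    rw [← div_le_iff₀ hX0]
    linarith [(abs_le.1 a2).2]
  set D : ℝ → ℝ := fun t => |∫ x in (0:ℝ)..1, bump h x * (Zn α δ (t + x) - mz α z (t + x))| with hD
  have hDc : Continuous D := by
    refine Continuous.abs ?_
    refine intervalIntegral.continuous_parametric_intervalIntegral_of_continuous' ?_ 0 1
    unfold Function.uncurry
    fun_prop
  have m1 := markov hDc (fun t => abs_nonneg _) hX0.le (c := c / 4) (by linarith)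
  have m2 := markov (g := fun u => F (pt (Sm z) u)) (hFc.comp (LAM.pt_cont _)) (fun u => hF0 _) hX0.le
    (c := 1) one_pos
  rw [mul_one] at m2
  have m1' : volume.real {t | t ∈ Set.Icc 0 X ∧ c / 4 ≤ D t} ≤ ε / 2 * X := by
    have : volume.real {t | t ∈ Set.Icc 0 X ∧ c / 4 ≤ D t} * (c / 4) ≤ ε / 2 * X * (c / 4) := by
      refine m1.trans (a1.trans (le_of_eq ?_)); ring
    exact le_of_mul_le_mul_right this (by linarith)
  have hsub : {t | t ∈ Set.Icc 0 X ∧ ∫ x in (h / 4)..(3 * h / 4), Zn α δ (t + x) < c / 4} ⊆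
      {t | t ∈ Set.Icc 0 X ∧ c / 4 ≤ D t} ∪ {t | t ∈ Set.Icc 0 X ∧ 1 ≤ F (pt (Sm z) t)} := by
    rintro t ⟨ht, hw⟩
    by_cases hd : c / 4 ≤ D t
    · exact Or.inl ⟨ht, hd⟩
    · right
      refine ⟨ht, ?_⟩
      push Not at hd
      have b1 : ∫ x in (0:ℝ)..1, bump h x * Zn α δ (t + x) < c / 4 :=
        lt_of_le_of_lt (bump_window hh hh1 (g := fun x => Zn α δ (t + x)) (by fun_prop)
          (fun x => Zn_nonneg hα hδp.le _)) hw
      have b2 : ∫ x in (0:ℝ)..1, bump h x * (Zn α δ (t + x) - mz α z (t + x)) =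
          (∫ x in (0:ℝ)..1, bump h x * Zn α δ (t + x)) - LAM.Psi α (bump h) z (pt (Sm z) t) := by
        rw [LAM.Psi_pt, ← intervalIntegral.integral_sub]
        · refine intervalIntegral.integral_congr fun x _ => ?_
          ring
        · exact Continuous.intervalIntegrable (by fun_prop) _ _
        · exact Continuous.intervalIntegrable (by fun_prop) _ _
      simp only [hD, b2] at hd
      have b3 := (abs_lt.1 hd).1
      have b4 : LAM.Psi α (bump h) z (pt (Sm z) t) < c / 2 := by linarith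
      simp only [hF, ct]
      refine le_max_of_le_right (le_min le_rfl ?_)
      have b5 : LAM.Psi α (bump h) z (pt (Sm z) t) / (c / 2) ≤ 1 := by
        rw [div_le_one (by linarith)]; exact b4.le
      linarith
  have hfin : ∀ S : Set ℝ, S ⊆ Set.Icc 0 X → volume S ≠ ⊤ := fun S hS =>
    ((measure_mono hS).trans_lt (by rw [Real.volume_Icc]; exact ENNReal.ofReal_lt_top)).ne
  calc volume.real {t | t ∈ Set.Icc 0 X ∧ ∫ x in (h / 4)..(3 * h / 4), Zn α δ (t + x) < c / 4} ≤
      volume.real ({t | t ∈ Set.Icc 0 X ∧ c / 4 ≤ D t} ∪ {t | t ∈ Set.Icc 0 X ∧ 1 ≤ F (pt (Sm z) t)}) :=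
        measureReal_mono hsub (hfin _ (Set.union_subset (fun t ht => ht.1) (fun t ht => ht.1)))
    _ ≤ volume.real {t | t ∈ Set.Icc 0 X ∧ c / 4 ≤ D t} +
        volume.real {t | t ∈ Set.Icc 0 X ∧ 1 ≤ F (pt (Sm z) t)} := measureReal_union_le _ _
    _ ≤ ε / 2 * X + ε / 2 * X := add_le_add m1' (m2.trans a3)
    _ = ε * X := by ring

end Run7.h311.LM.Near
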