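import Pool.Agent.N748.GC.AS
import Pool.Agent.N748.GC.Fin

set_option autoImplicit false

/-!
# Positivity of the masses of the random measures (zero-one law)
-/

namespace Run7.h311.LM.Pos

open Finset Filter MeasureTheory Topology Complex ProbabilityTheory
open Pool.Agent.N748.GC Pool.Agent.N748.GC.AS

variable {k : ℕ → UnitAddCircle → ℝ → ℝ}

/-- the product of the densities from `N` to `n` -/
noncomputable def TT (k : ℕ → UnitAddCircle → ℝ → ℝ) (N n : ℕ) (w : Om) (x : ℝ) : ℝ :=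
  ∏ i ∈ Ico N n, k i (w i) x

/-- the integrals of the tail products -/
noncomputable def TY (k : ℕ → UnitAddCircle → ℝ → ℝ) (f : C(unitInterval, ℝ)) (N n : ℕ) (w : Om) : ℝ :=
  ∫ x : unitInterval, f x * TT k N n w x

theorem TT_nonneg (hk : Ker k) (N n : ℕ) (w : Om) (x : ℝ) : 0 ≤ TT k N n w x :=
  Finset.prod_nonneg fun i _ => hk.nonneg i _ _

theorem RR_split (N n : ℕ) (h : N ≤ n) (w : Om) (x : ℝ) : RR k n w x = RR k N w x * TT k N n w x := by
  unfold RR TT
  rw [Finset.prod_range_mul_prod_Ico _ h]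

theorem TT_cont (hk : Ker k) (N n : ℕ) : Continuous fun q : Om × ℝ => TT k N n q.1 q.2 := by
  unfold TT
  refine continuous_finsetProd _ fun i _ => ?_
  exact (hk.cont i).comp (by fun_prop : Continuous fun q : Om × ℝ => (q.1 i, q.2))

/-- the tail σ-algebra from `N` on -/
theorem TY_meas (hk : Ker k) (f : C(unitInterval, ℝ)) (N n : ℕ) :
    Measurable[⨆ i ≥ N, MeasurableSpace.comap (fun w : Om => w i) inferInstance] (TY k f N n) := by
  have h1 : TY k f N n = (fun y : (i : Ico N n) → UnitAddCircle =>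
      ∫ x : unitInterval, f x * ∏ i : Ico N n, k i (y i) x) ∘ (Ico N n).restrict := by
    funext w
    simp only [TY, Function.comp, TT]
    refine integral_congr_ae (ae_of_all _ fun x => ?_)
    simp only
    congr 1
    rw [← Finset.prod_coe_sort (Ico N n)]
    rfl
  have hc : Continuous fun q : ((i : Ico N n) → UnitAddCircle) × unitInterval =>
      f q.2 * ∏ i : Ico N n, k i (q.1 i) q.2 := by
    refine Continuous.mul (by fun_prop) (continuous_finsetProd _ fun i _ => ?_)
    exact (hk.cont i).comp (by fun_prop : Continuous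
      fun q : ((i : Ico N n) → UnitAddCircle) × unitInterval => (q.1 i, (q.2 : ℝ)))
  have h2 : Continuous (fun y : (i : Ico N n) → UnitAddCircle =>
      ∫ x : unitInterval, f x * ∏ i : Ico N n, k i (y i) x) := by
    have h := continuous_parametric_integral_of_continuous (μ := (volume : Measure unitInterval))
      (f := fun (y : (i : Ico N n) → UnitAddCircle) (x : unitInterval) =>
        f x * ∏ i : Ico N n, k i (y i) x) hc isCompact_univ
    simpa using h
  rw [h1]
  refine h2.measurable.comp ?_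
  refine @measurable_pi_iff _ _ _ (_) _ _ |>.2 fun i => ?_
  have hi := Finset.mem_Ico.1 i.2
  have h3 : MeasurableSpace.comap (fun w : Om => w i) inferInstance ≤
      ⨆ i ≥ N, MeasurableSpace.comap (fun w : Om => w i) inferInstance :=
    le_iSup₂_of_le (i : ℕ) hi.1 le_rfl
  intro s hs
  exact h3 _ ⟨s, hs, rfl⟩

/-- small values infinitely often -/
def AA (Y : ℕ → Om → ℝ) : Set Om := {w | ∀ k m : ℕ, ∃ n ≥ m, Y n w < 1 / ((k:ℝ) + 1)}

theorem AA_eq (Y : ℕ → Om → ℝ) :
    AA Y = ⋂ k : ℕ, ⋂ m : ℕ, ⋃ n : ℕ, ⋃ _ : n ≥ m, {w | Y n w < 1 / ((k:ℝ) + 1)} := by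
  ext w
  simp [AA]

/-- two-sided comparison with the tail products -/
theorem compare (hk : Ker k) (hpos : ∀ n y x, 0 < k n y x) (f : C(unitInterval, ℝ)) (hf : ∀ x, 0 ≤ f x)
    (N : ℕ) : ∃ a b : ℝ, 0 < a ∧ 0 < b ∧ ∀ n ≥ N, ∀ w : Om, a * TY k f N n w ≤ YY k f n w ∧
      YY k f n w ≤ b * TY k f N n w := by
  have hc : Continuous fun q : Om × unitInterval => RR k N q.1 q.2 :=
    (RR_cont hk N).comp (by fun_prop : Continuous fun q : Om × unitInterval => (q.1, (q.2 : ℝ)))
  have hp : ∀ q : Om × unitInterval, 0 < RR k N q.1 q.2 := fun q =>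
    Finset.prod_pos fun i _ => hpos i _ _
  obtain ⟨q1, -, h1⟩ := isCompact_univ.exists_isMinOn (s := (Set.univ : Set (Om × unitInterval)))
    ⟨(fun _ => 0, 0), Set.mem_univ _⟩ hc.continuousOn
  obtain ⟨q2, -, h2⟩ := isCompact_univ.exists_isMaxOn (s := (Set.univ : Set (Om × unitInterval)))
    ⟨(fun _ => 0, 0), Set.mem_univ _⟩ hc.continuousOn
  refine ⟨RR k N q1.1 q1.2, RR k N q2.1 q2.2, hp _, hp _, fun n hn w => ?_⟩
  have hi : ∀ n, Integrable (fun x : unitInterval => f x * RR k n w x) volume := fun n =>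
    int_of_cont _ ((int_cont hk f n).comp (by fun_prop : Continuous fun x : unitInterval => (w, x)))
  have hj : Integrable (fun x : unitInterval => f x * TT k N n w x) volume := by
    refine int_of_cont _ (f.continuous.mul ?_)
    exact (TT_cont hk N n).comp (by fun_prop : Continuous fun x : unitInterval => (w, (x : ℝ)))
  unfold YY TY
  rw [← integral_const_mul, ← integral_const_mul]
  constructor
  · refine integral_mono (hj.const_mul _) (hi n) fun x => ?_
    simp only
    rw [RR_split N n hn]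
    have h3 : RR k N q1.1 q1.2 ≤ RR k N w x := h1 (Set.mem_univ (w, x))
    have h4 := mul_nonneg (hf x) (TT_nonneg hk N n w x)
    nlinarith
  · refine integral_mono (hi n) (hj.const_mul _) fun x => ?_
    simp only
    rw [RR_split N n hn]
    have h3 : RR k N w x ≤ RR k N q2.1 q2.2 := h2 (Set.mem_univ (w, x))
    have h4 := mul_nonneg (hf x) (TT_nonneg hk N n w x)
    nlinarith

theorem AA_tail (hk : Ker k) (hpos : ∀ n y x, 0 < k n y x) (f : C(unitInterval, ℝ)) (hf : ∀ x, 0 ≤ f x)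
    (N : ℕ) : AA (YY k f) = AA (TY k f N) := by
  obtain ⟨a, b, ha, hb, hab⟩ := compare hk hpos f hf N
  ext w
  constructor
  · intro h j m
    obtain ⟨j', hj'⟩ := exists_nat_gt (((j:ℝ) + 1) / a)
    obtain ⟨n, hn, hw⟩ := h j' (max m N)
    refine ⟨n, (le_max_left _ _).trans hn, ?_⟩
    have h1 := (hab n ((le_max_right _ _).trans hn) w).1
    have h2 : 1 / ((j':ℝ) + 1) ≤ a / ((j:ℝ) + 1) := by
      rw [div_le_div_iff₀ (by positivity) (by positivity)]
      rw [div_lt_iff₀ ha] at hj'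
      nlinarith
    have h3 : a * TY k f N n w < a * (1 / ((j:ℝ) + 1)) := by
      rw [mul_one_div]; linarith
    exact lt_of_mul_lt_mul_left h3 ha.le
  · intro h j m
    obtain ⟨j', hj'⟩ := exists_nat_gt (((j:ℝ) + 1) * b)
    obtain ⟨n, hn, hw⟩ := h j' (max m N)
    refine ⟨n, (le_max_left _ _).trans hn, ?_⟩
    have h1 := (hab n ((le_max_right _ _).trans hn) w).2
    have h2 : b * (1 / ((j':ℝ) + 1)) ≤ 1 / ((j:ℝ) + 1) := by
      rw [mul_one_div, div_le_div_iff₀ (by positivity) (by positivity)]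
      nlinarith
    have h3 : b * TY k f N n w < b * (1 / ((j':ℝ) + 1)) := mul_lt_mul_of_pos_left hw hb
    linarith

theorem AA_meas (hk : Ker k) (hpos : ∀ n y x, 0 < k n y x) (f : C(unitInterval, ℝ)) (hf : ∀ x, 0 ≤ f x) :
    MeasurableSet[limsup (fun i => MeasurableSpace.comap (fun w : Om => w i) inferInstance) atTop]
      (AA (YY k f)) := by
  rw [limsup_eq_iInf_iSup_of_nat, MeasurableSpace.measurableSet_iInf]
  intro N
  rw [AA_tail hk hpos f hf N, AA_eq]
  refine MeasurableSet.iInter fun j => MeasurableSet.iInter fun m => MeasurableSet.iUnion fun n =>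
    MeasurableSet.iUnion fun _ => ?_
  exact measurableSet_lt (TY_meas hk f N n) measurable_const

theorem zero_one (hk : Ker k) (hpos : ∀ n y x, 0 < k n y x) (f : C(unitInterval, ℝ)) (hf : ∀ x, 0 ≤ f x) :
    PO (AA (YY k f)) = 0 ∨ PO (AA (YY k f)) = 1 := by
  have h0 : iIndepFun (fun (i : ℕ) (w : Om) => w i) PO := by
    have := iIndepFun_infinitePi (P := fun _ : ℕ => (AddCircle.haarAddCircle (T := (1:ℝ))))
      (X := fun _ y => y) (fun _ => measurable_id)
    exact this
  exact measure_zero_or_one_of_measurableSet_limsup_atTop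
    (fun i => (measurable_pi_apply i).comap_le) h0.iIndep (AA_meas hk hpos f hf)


theorem AA_null (hk : Ker k) (hpos : ∀ n y x, 0 < k n y x) (f : C(unitInterval, ℝ)) (hf : ∀ x, 0 ≤ f x)
    {L : Om → ℝ} (hLi : Integrable L PO) (hL : 0 < ∫ w, L w ∂PO)
    (hlim : Tendsto (fun z : ℕ => ∫ w, |YY k f z w - L w| ∂PO) atTop (𝓝 0)) : PO (AA (YY k f)) = 0 := by
  rcases zero_one hk hpos f hf with h | h
  · exact h
  exfalso
  have h1 : ∀ᵐ w ∂PO, w ∈ AA (YY k f) := by
    rw [← prob_compl_eq_zero_iff] at h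
    · exact mem_ae_iff.2 h
    · have h2 := AA_meas hk hpos f hf
      have h3 : limsup (fun i => MeasurableSpace.comap (fun w : Om => w i) inferInstance) atTop ≤
          (MeasurableSpace.pi : MeasurableSpace Om) :=
        limsup_le_iSup.trans (iSup_le fun i => (measurable_pi_apply i).comap_le)
      exact h3 _ h2
  have hnn : ∀ n w, 0 ≤ YY k f n w := fun n w =>
    integral_nonneg fun x => mul_nonneg (hf x) (RR_nonneg hk n w x)
  have h2 : ∀ᵐ w ∂PO, Tendsto (fun z => YY k f z w) atTop (𝓝 ((fun _ => (0:ℝ)) w)) := by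
    filter_upwards [h1, conv_f hk f] with w hw hc
    obtain ⟨c, hc⟩ := hc
    have hc0 : 0 ≤ c := ge_of_tendsto' hc fun n => hnn n w
    rcases hc0.eq_or_lt with h0 | h0
    · rw [← h0] at hc; exact hc
    · exfalso
      obtain ⟨m, hm⟩ := (hc.eventually (lt_mem_nhds (half_lt_self h0))).exists_forall_of_atTop
      obtain ⟨j, hj⟩ := exists_nat_gt (2 / c)
      obtain ⟨n, hn, hw'⟩ := hw j m
      have h3 := hm n hn
      have h4 : 1 / ((j:ℝ) + 1) ≤ c / 2 := by
        rw [div_lt_iff₀ h0] at hj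
        rw [div_le_div_iff₀ (by positivity) (by positivity)]
        nlinarith
      linarith
  have h3 := lim_unique (X := fun z => YY k f z) (fun z => YY_int hk f z) hLi hlim h2
  have h4 : ∫ w, L w ∂PO = 0 := by
    rw [← integral_congr_ae h3]; simp
  linarith

/-- with high probability the integrals are bounded below -/
theorem pos_prob (hk : Ker k) (hpos : ∀ n y x, 0 < k n y x) (f : C(unitInterval, ℝ)) (hf : ∀ x, 0 ≤ f x)
    {L : Om → ℝ} (hLi : Integrable L PO) (hL : 0 < ∫ w, L w ∂PO)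
    (hlim : Tendsto (fun z : ℕ => ∫ w, |YY k f z w - L w| ∂PO) atTop (𝓝 0)) {ε : ℝ} (hε : 0 < ε) :
    ∃ c : ℝ, 0 < c ∧ ∃ z0 : ℕ, ∀ z ≥ z0, PO.real {w | YY k f z w < c} ≤ ε := by
  have h0 := AA_null hk hpos f hf hLi hL hlim
  set B : ℕ → Set Om := fun j => ⋃ n : ℕ, ⋃ _ : n ≥ j, {w | YY k f n w < 1 / ((j:ℝ) + 1)} with hB
  have hBm : ∀ j, MeasurableSet (B j) := fun j => MeasurableSet.iUnion fun n =>
    MeasurableSet.iUnion fun _ => measurableSet_lt (YY_cont hk f n).measurable measurable_const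
  have hanti : Antitone B := by
    intro i j hij w hw
    simp only [hB, Set.mem_iUnion, Set.mem_ofPred_eq] at hw ⊢
    obtain ⟨n, hn, hw⟩ := hw
    refine ⟨n, le_trans hij hn, lt_of_lt_of_le hw ?_⟩
    have : (i:ℝ) ≤ j := by exact_mod_cast hij
    exact one_div_le_one_div_of_le (by positivity) (by linarith)
  have hsub : ⋂ j, B j ⊆ AA (YY k f) := by
    intro w hw j m
    simp only [hB, Set.mem_iInter, Set.mem_iUnion, Set.mem_ofPred_eq] at hw
    obtain ⟨n, hn, hw⟩ := hw (max j m)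
    refine ⟨n, (le_max_right _ _).trans hn, lt_of_lt_of_le hw ?_⟩
    have : (j:ℝ) ≤ (max j m : ℕ) := by exact_mod_cast le_max_left _ _
    exact one_div_le_one_div_of_le (by positivity) (by linarith)
  have h1 : Tendsto (fun j => PO (B j)) atTop (𝓝 (PO (⋂ j, B j))) :=
    tendsto_measure_iInter_atTop (fun j => (hBm j).nullMeasurableSet) hanti ⟨0, measure_ne_top _ _⟩
  rw [measure_mono_null hsub h0] at h1
  have h2 := (ENNReal.tendsto_toReal ENNReal.zero_ne_top).comp h1
  obtain ⟨j, hj⟩ := (h2.eventually (gt_mem_nhds (by simpa using hε))).exists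
  refine ⟨1 / ((j:ℝ) + 1), by positivity, j, fun z hz => ?_⟩
  have h3 : {w | YY k f z w < 1 / ((j:ℝ) + 1)} ⊆ B j := by
    intro w hw
    simp only [hB, Set.mem_iUnion, Set.mem_ofPred_eq]
    exact ⟨z, hz, hw⟩
  exact (measureReal_mono h3 (measure_ne_top _ _)).trans hj.le

theorem kk_pos (α : ℝ) (n : ℕ) (y : UnitAddCircle) (u : ℝ) : 0 < kk α n y u := by
  by_cases hn : n.Prime
  · simp only [kk, if_pos hn]
    exact div_pos (Real.exp_pos _) (RZ.expint_pos α hn)
  · simp only [kk, if_neg hn]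
    exact zero_lt_one

/-- lower bound for the masses of the random Euler product, on the finite torus -/
theorem psi_low {α : ℝ} (hα : 0 < α) (hα1 : α < 1) {f : ℝ → ℝ} (hf : Continuous f) (hf0 : ∀ x, 0 ≤ f x)
    (hfi : 0 < ∫ x in (0:ℝ)..1, f x) {ε : ℝ} (hε : 0 < ε) :
    ∃ c : ℝ, 0 < c ∧ ∃ z0 : ℕ, ∀ z ≥ z0, (HP (Sm z)).real {y | LAM.Psi α f z y < c} ≤ ε := by
  obtain ⟨Λ, hΛ⟩ := LAM.main coreF ERG.main RZ.main α hα hα1
  obtain ⟨-, hΛi, hΛe, hΛl⟩ := hΛ f hf
  set g : C(unitInterval, ℝ) := ⟨fun x => f x, by fun_prop⟩ with hg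
  have key : ∀ z w, ∫ x in (0:ℝ)..1, f x * rz α z w x = YY (kk α) g z w := by
    intro z w
    have hr : rz α z w = RR (kk α) z w := funext fun u => rz_eq hα z w u
    rw [hr]
    unfold YY
    rw [intervalIntegral.integral_of_le zero_le_one, ← integral_Icc_eq_integral_Ioc]
    exact (integral_subtype_comap measurableSet_Icc (fun x : ℝ => f x * RR (kk α) z w x)).symm
  simp_rw [key] at hΛl
  obtain ⟨c, hc, z0, hz⟩ := pos_prob (kk_ker α) (kk_pos α) g (fun x => hf0 x) hΛi (by rw [hΛe]; exact hfi)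
    hΛl hε
  refine ⟨c, hc, z0, fun z hz' => le_trans (le_of_eq ?_) (hz z hz')⟩
  have h1 : MeasurableSet {y | LAM.Psi α f z y < c} :=
    measurableSet_lt (LAM.Psi_cont α hf z).measurable measurable_const
  have h2 := (RZ.restr_mp (Sm z)).measureReal_preimage h1.nullMeasurableSet
  rw [← h2]
  congr 1
  ext w
  simp only [Set.mem_preimage, Set.mem_ofPred_eq]
  rw [← key, LAM.Psi_rz RZ.main hα]

end Run7.h311.LM.Pos
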