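import Pool.Agent.Y568.UP.STRIP
import Pool.Agent.Y496.UP.OUT
import Pool.Agent.Y732.UP.SUBA
import Pool.Agent.W184.Avg

set_option autoImplicit false

/-!
# The upper bound for the moments on the critical line
-/

namespace Run7.h311.LM.Up

open Filter MeasureTheory Topology Complex
open Pool.Agent.W184 (zn zn_nonneg zn_cont zn_neg)

/-- the power of the absolute value of zeta on the critical line -/
noncomputable def G (p t : ℝ) : ℝ := ‖riemannZeta (1 / 2 + t * I)‖ ^ p

theorem G_zn (p t : ℝ) : G p t = zn (1 / 2) t ^ p := by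
  unfold G zn
  push_cast
  rfl

theorem G_nonneg (p t : ℝ) : 0 ≤ G p t := Real.rpow_nonneg (norm_nonneg _) _

theorem G_cont {p : ℝ} (hp : 0 < p) : Continuous (G p) := by
  have h : G p = fun t => zn (1 / 2) t ^ p := funext fun t => G_zn p t
  rw [h]
  exact (zn_cont (by norm_num)).rpow_const fun _ => Or.inr hp.le

theorem G_neg (p t : ℝ) : G p (-t) = G p t := by
  rw [G_zn, G_zn, zn_neg]

theorem G_ii {p : ℝ} (hp : 0 < p) (a b : ℝ) : IntervalIntegrable (G p) volume a b :=
  (G_cont hp).intervalIntegrable _ _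

/-- the size -/
theorem total {α : ℝ} (hα : 0 < α) (hα2 : α ≤ 2) : ∃ C : ℝ, 1 ≤ C ∧ ∀ᶠ T : ℝ in atTop,
    ∫ t in (0:ℝ)..T, G (2 * α) t ≤ C * (T * Real.log T ^ (α ^ 2)) := by
  have hp : 0 < 2 * α := by linarith
  obtain ⟨C, hC, hev⟩ := Pool.Agent.Y568.UP.t_STRIP Pool.Agent.Y732.UP.t_SUBA Pool.Agent.Y496.UP.t_OUT
    α 1 hα hα2 one_pos
  have hlog : Tendsto Real.log atTop atTop := Real.tendsto_log_atTop
  obtain ⟨T0, hT0⟩ := (hev.and ((eventually_ge_atTop (1:ℝ)).and (hlog.eventually_ge_atTop 1))).exists_forall_of_atTop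
  have key : ∀ T ≥ T0, ∫ t in (T / 2)..T, G (2 * α) t ≤ C * (T * Real.log T ^ (α ^ 2)) := by
    intro T hT
    obtain ⟨h1, h2, h3⟩ := hT0 T hT
    have h4 := h1 0 (by rw [abs_zero]; positivity)
    have h5 : ∀ t : ℝ, ‖riemannZeta (((1 / 2 + 0 : ℝ) : ℂ) + t * I)‖ ^ (2 * α) = G (2 * α) t := by
      intro t
      unfold G
      norm_num
    simp_rw [h5] at h4
    refine le_trans ?_ h4
    have h6 := intervalIntegral.integral_add_adjacent_intervals (G_ii hp (T / 2) T) (G_ii hp T (3 * T))
    have h7 : 0 ≤ ∫ t in T..(3 * T), G (2 * α) t :=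
      intervalIntegral.integral_nonneg (by linarith) fun t _ => G_nonneg _ _
    linarith
  set T1 := max T0 1 with hT1
  have hT1' : 1 ≤ T1 := le_max_right _ _
  set B : ℝ := ∫ t in (0:ℝ)..(2 * T1), G (2 * α) t with hB
  have hB0 : 0 ≤ B := intervalIntegral.integral_nonneg (by linarith) fun t _ => G_nonneg _ _
  have ind : ∀ n : ℕ, ∀ T : ℝ, T1 ≤ T → T ≤ T1 * 2 ^ (n + 1) →
      ∫ t in (0:ℝ)..T, G (2 * α) t ≤ B + 2 * C * (T * Real.log T ^ (α ^ 2)) := by
    intro n
    induction n with
    | zero =>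
      intro T h1 h2
      have hlT : 0 ≤ Real.log T := Real.log_nonneg (by linarith)
      rw [zero_add, pow_one] at h2
      have hTp : 0 < T := by linarith
      have h3 : ∫ t in (0:ℝ)..T, G (2 * α) t ≤ B := by
        rw [hB]
        refine intervalIntegral.integral_mono_interval le_rfl (by linarith) (by linarith)
          (Eventually.of_forall fun x => G_nonneg _ _) (G_ii hp _ _)
      have h4 : 0 ≤ 2 * C * (T * Real.log T ^ (α ^ 2)) := by positivity
      linarith
    | succ n ih =>
      intro T h1 h2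
      rcases le_total T (T1 * 2 ^ (n + 1)) with h | h
      · exact ih T h1 h
      · have hT2 : T1 * 2 ≤ T := by
          refine le_trans ?_ h
          have : (1:ℝ) ≤ 2 ^ n := one_le_pow₀ (by norm_num)
          rw [pow_succ]
          nlinarith
        have h3 := ih (T / 2) (by linarith) (by
          rw [pow_succ] at h2; linarith)
        have h4 := key T (by linarith [le_max_left T0 1])
        have h5 := intervalIntegral.integral_add_adjacent_intervals (G_ii hp 0 (T / 2)) (G_ii hp (T / 2) T)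
        have hT0' : 0 < T := by linarith
        have h6 : Real.log (T / 2) ^ (α ^ 2) ≤ Real.log T ^ (α ^ 2) := by
          refine Real.rpow_le_rpow (Real.log_nonneg (by linarith)) ?_ (by positivity)
          exact Real.log_le_log (by linarith) (by linarith)
        have h7 : 2 * C * (T / 2 * Real.log (T / 2) ^ (α ^ 2)) ≤ C * (T * Real.log T ^ (α ^ 2)) := by
          have : T / 2 * Real.log (T / 2) ^ (α ^ 2) ≤ T / 2 * Real.log T ^ (α ^ 2) :=
            mul_le_mul_of_nonneg_left h6 (by linarith)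
          nlinarith
        linarith
  refine ⟨B + 2 * C, by linarith, ?_⟩
  filter_upwards [eventually_ge_atTop T1, hlog.eventually_ge_atTop 1] with T h1 h2
  obtain ⟨n, hn⟩ := pow_unbounded_of_one_lt (T / T1) (one_lt_two (α := ℝ))
  rw [div_lt_iff₀ (by linarith)] at hn
  have h3 := ind n T h1 (by
    rw [pow_succ]
    have : (0:ℝ) < 2 ^ n := by positivity
    nlinarith)
  refine h3.trans ?_
  have h4 : 1 ≤ Real.log T ^ (α ^ 2) := Real.one_le_rpow h2 (by positivity)
  have h5 : 1 ≤ T * Real.log T ^ (α ^ 2) := by nlinarith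
  nlinarith

end Run7.h311.LM.Up
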